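import Pool.Agent.H61.PM.Sylow
import Pool.Agent.H61.CM.AltCls

/-!
# No alternating composition factors

Used for MP_8e3030_al.
-/

namespace Pool.Agent.H61.PM

open Equiv Pool.Agent.H61.CM

theorem six_elements : ∃ a b x : alternatingGroup (Fin 6), a ^ 3 = 1 ∧ b ^ 3 = 1 ∧ x ^ 2 = 1 ∧
    x ≠ 1 ∧ a * b = b * a ∧ x * a * x⁻¹ = a⁻¹ ∧ x * b * x⁻¹ = b⁻¹ ∧ a ≠ 1 ∧
    b ∉ Subgroup.zpowers a := by
  refine ⟨⟨swap 0 1 * swap 1 2, by rw [Perm.mem_alternatingGroup]; decide⟩,
    ⟨swap 3 4 * swap 4 5, by rw [Perm.mem_alternatingGroup]; decide⟩,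
    ⟨swap 0 1 * swap 3 4, by rw [Perm.mem_alternatingGroup]; decide⟩,
    Subtype.ext (by decide), Subtype.ext (by decide), Subtype.ext (by decide), ?_,
    Subtype.ext (by decide), Subtype.ext (by decide), Subtype.ext (by decide), ?_, ?_⟩
  · intro h
    have := congrArg Subtype.val h
    revert this
    decide
  · intro h
    have := congrArg Subtype.val h
    revert this
    decide
  · intro h5
    have h6 : Subgroup.zpowers (⟨swap 0 1 * swap 1 2, by
        rw [Perm.mem_alternatingGroup]; decide⟩ : alternatingGroup (Fin 6)) ≤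
        MulAction.stabilizer (alternatingGroup (Fin 6)) (3 : Fin 6) := by
      rw [Subgroup.zpowers_le, MulAction.mem_stabilizer_iff]
      change (swap 0 1 * swap 1 2 : Perm (Fin 6)) 3 = 3
      decide
    have h7 := h6 h5
    rw [MulAction.mem_stabilizer_iff] at h7
    have h8 : (swap 3 4 * swap 4 5 : Perm (Fin 6)) 3 = 3 := h7
    revert h8
    decide

/-- the Sylow `3`-subgroups of the alternating group of degree `6` -/
theorem sylow_six : Nat.card (Sylow 3 (alternatingGroup (Fin 6))) ≤ 10 := by
  classical
  let T := alternatingGroup (Fin 6)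
  have hcard : Nat.card T = 360 := by
    change Nat.card (alternatingGroup (Fin 6)) = 360
    rw [nat_card_alternatingGroup, Nat.card_eq_fintype_card, Fintype.card_fin]
    rfl
  have : Fact (Nat.Prime 3) := ⟨Nat.prime_three⟩
  obtain ⟨a, b, x, ha3, hb3, hx2, hx1, hab, hxa, hxb, ha1, hba⟩ := six_elements
  have hpa : ∀ c : T, c ^ 3 = 1 → IsPGroup 3 (Subgroup.zpowers c) := by
    rintro c hc ⟨g, hg⟩
    obtain ⟨k, rfl⟩ := Subgroup.mem_zpowers_iff.1 hg
    refine ⟨1, Subtype.ext ?_⟩
    change (c ^ k) ^ (3 ^ 1) = 1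
    rw [pow_one, ← zpow_natCast, ← zpow_mul, mul_comm, zpow_mul, zpow_natCast, hc, one_zpow]
  have hC : IsPGroup 3 (Subgroup.zpowers a ⊔ Subgroup.zpowers b : Subgroup T) := by
    apply IsPGroup.to_sup_of_normal_right' (hpa a ha3) (hpa b hb3)
    rw [Subgroup.zpowers_le]
    rw [Subgroup.mem_normalizer_iff]
    intro g
    have key : ∀ g ∈ Subgroup.zpowers b, a * g * a⁻¹ = g := by
      intro g hg
      obtain ⟨k, rfl⟩ := Subgroup.mem_zpowers_iff.1 hg
      have h1 : Commute a (b ^ k) := Commute.zpow_right hab k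
      rw [h1.eq, mul_inv_cancel_right]
    constructor
    · intro hg
      rw [key g hg]
      exact hg
    · intro hg
      have h1 := key _ hg
      have h2 : a * g * a⁻¹ = g := by
        have h3 : a⁻¹ * (a * (a * g * a⁻¹) * a⁻¹) * a = a⁻¹ * (a * g * a⁻¹) * a := by rw [h1]
        have h4 : a⁻¹ * (a * (a * g * a⁻¹) * a⁻¹) * a = a * g * a⁻¹ := by group
        have h5 : a⁻¹ * (a * g * a⁻¹) * a = g := by group
        rw [h4, h5] at h3
        exact h3
      rwa [h2] at hg
  obtain ⟨P, hCP⟩ := hC.exists_le_sylow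
  have hP9 : Nat.card P = 9 := by
    rw [P.card_eq_multiplicity, hcard]
    have h1 : (360 : ℕ) = 3 ^ 2 * 40 := by norm_num
    have h2 : Nat.factorization 360 3 = 2 := by
      rw [h1, Nat.factorization_mul (by norm_num) (by norm_num), Nat.factorization_pow]
      simp only [Finsupp.add_apply, Finsupp.smul_apply,
        Nat.Prime.factorization_self Nat.prime_three]
      rw [Nat.factorization_eq_zero_of_not_dvd (by norm_num)]
      rfl
    rw [h2]
    norm_num
  set C := (Subgroup.zpowers a ⊔ Subgroup.zpowers b : Subgroup T) with hCdef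
  have haC : a ∈ C := (le_sup_left : Subgroup.zpowers a ≤ C) (Subgroup.mem_zpowers a)
  have hbC : b ∈ C := (le_sup_right : Subgroup.zpowers b ≤ C) (Subgroup.mem_zpowers b)
  -- `C = P`
  have hCP' : C = P := by
    have h1 : Nat.card C ∣ 9 := by
      rw [← hP9]
      exact Subgroup.card_dvd_of_le hCP
    have h2 : 3 < Nat.card C := by
      have h3 : Nat.card (Subgroup.zpowers a) = 3 := by
        rw [Nat.card_zpowers]
        exact orderOf_eq_prime ha3 ha1
      rw [← h3]
      have h4 : Subgroup.zpowers a < C := by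
        apply lt_of_le_of_ne le_sup_left
        intro h
        exact hba (by rw [h]; exact hbC)
      exact Set.ncard_lt_ncard (SetLike.coe_ssubset_coe.2 h4) (Set.toFinite _)
    have h3 : Nat.card C = 9 := by
      have h4 : Nat.card C ∈ Nat.divisors 9 := Nat.mem_divisors.2 ⟨h1, by norm_num⟩
      have h5 : Nat.divisors 9 = {1, 3, 9} := by decide
      rw [h5] at h4
      simp only [Finset.mem_insert, Finset.mem_singleton] at h4
      omega
    apply Subgroup.eq_of_le_of_card_ge hCP
    rw [h3]
    exact hP9.le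
  -- `x` normalises `P` and does not lie in `P`
  have hxn : x ∈ Subgroup.normalizer (P : Set T) := by
    have hxC : ∀ g ∈ C, x * g * x⁻¹ ∈ C := by
      have h1 : C ≤ C.comap (MulAut.conj x).toMonoidHom := by
        rw [hCdef, sup_le_iff, Subgroup.zpowers_le, Subgroup.zpowers_le]
        constructor
        · change x * a * x⁻¹ ∈ C
          rw [hxa]
          exact C.inv_mem haC
        · change x * b * x⁻¹ ∈ C
          rw [hxb]
          exact C.inv_mem hbC
      exact fun g hg => h1 hg
    have hx' : x⁻¹ = x := by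
      rw [inv_eq_iff_mul_eq_one, ← pow_two, hx2]
    have h0 : Subgroup.normalizer (P : Set T) = Subgroup.normalizer ((P : Subgroup T) : Set T) := rfl
    rw [h0, ← hCP', Subgroup.mem_normalizer_iff]
    intro g
    constructor
    · exact hxC g
    · intro hg
      have h1 := hxC _ hg
      have h2 : x * (x * g * x⁻¹) * x⁻¹ = (x * x) * g * (x * x)⁻¹ := by group
      rw [h2, ← pow_two, hx2] at h1
      simpa using h1
  have hxP : x ∉ P := by
    intro h
    have h1 : (⟨x, h⟩ : P) ^ 9 = 1 := by
      rw [← hP9]
      exact pow_card_eq_one'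
    have h2 : x ^ 9 = 1 := congrArg Subtype.val h1
    apply hx1
    calc x = x ^ 9 * ((x ^ 2) ^ 4)⁻¹ := by group
      _ = 1 := by rw [h2, hx2]; simp
  have hidx : (P : Subgroup T).index = 40 := by
    have h1 := Subgroup.card_mul_index (P : Subgroup T)
    have h2 : Nat.card (P : Subgroup T) = 9 := hP9
    rw [h2, hcard] at h1
    omega
  have hdvd : Nat.card (Sylow 3 T) ∣ 40 := by
    rw [← hidx]
    exact P.card_dvd_index
  have hmod : Nat.card (Sylow 3 T) ≡ 1 [MOD 3] := card_sylow_modEq_one 3 T
  have hne : Nat.card (Sylow 3 T) ≠ 40 := by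
    intro h
    have h0 := P.card_eq_index_normalizer
    have h1 : (P : Subgroup T) < Subgroup.normalizer (P : Set T) := by
      apply lt_of_le_of_ne Subgroup.le_normalizer
      intro h2
      apply hxP
      have h3 : x ∈ (P : Subgroup T) := h2.ge hxn
      exact h3
    have h2 := Subgroup.index_strictAnti h1
    exact absurd (h0.symm.trans (h.trans hidx.symm)) h2.ne
  have h1 : Nat.card (Sylow 3 T) ∈ Nat.divisors 40 := Nat.mem_divisors.2 ⟨hdvd, by norm_num⟩
  have h2 : Nat.divisors 40 = {1, 2, 4, 5, 8, 10, 20, 40} := by decide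
  rw [h2] at h1
  simp only [Finset.mem_insert, Finset.mem_singleton] at h1
  have h3 : Nat.card (Sylow 3 T) % 3 = 1 := hmod
  change Nat.card (Sylow 3 T) ≤ 10
  omega

/-- an element of the alternating group moving one point to another -/
theorem exists_move {m : ℕ} (hm : 5 ≤ m) (x y : Fin m) :
    ∃ t : alternatingGroup (Fin m), (t : Perm (Fin m)) x = y := by
  by_cases hxy : x = y
  · exact ⟨1, by rw [hxy]; rfl⟩
  obtain ⟨z, hz⟩ : ∃ z : Fin m, z ∉ ({x, y} : Finset (Fin m)) := by
    by_contra hcon
    push Not at hcon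
    have h1 : ({x, y} : Finset (Fin m)) = Finset.univ := by
      ext z
      simp only [Finset.mem_univ, iff_true]
      exact hcon z
    have h2 := Finset.card_le_two (a := x) (b := y)
    rw [h1, Finset.card_univ, Fintype.card_fin] at h2
    omega
  simp only [Finset.mem_insert, Finset.mem_singleton, not_or] at hz
  refine ⟨⟨swap y z * swap x z, ?_⟩, ?_⟩
  · rw [Perm.mem_alternatingGroup, Perm.sign_mul, Perm.sign_swap (Ne.symm hz.2),
      Perm.sign_swap (Ne.symm hz.1)]
    rfl
  · change (swap y z * swap x z) x = y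
    rw [Perm.mul_apply, swap_apply_left, swap_apply_right]

theorem no_alt {G : Type} [Group G] [Finite G] (hG : AllMonomial G) {m : ℕ} (hm : 5 ≤ m)
    {K : Subgroup G} (hK : K.IsSubnormal) (f : K →* alternatingGroup (Fin m))
    (hf : Function.Surjective f) : False := by
  classical
  have h5 : 5 ≤ Nat.card (Fin m) := by rw [Nat.card_eq_fintype_card, Fintype.card_fin]; omega
  have := alternatingGroup.isSimpleGroup h5
  have hT : ∃ a b : alternatingGroup (Fin m), a * b ≠ b * a := by
    have := Pool.Agent.H61.IG.Alt.alt_noncomm (n := m) (by omega)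
    push Not at this
    exact this
  have : Nontrivial (Fin m) := Fin.nontrivial_iff_two_le.2 (by omega)
  have hcard : 2 * Nat.card (alternatingGroup (Fin m)) = m.factorial := by
    rw [two_mul_nat_card_alternatingGroup, Nat.card_perm, Nat.card_eq_fintype_card,
      Fintype.card_fin]
  by_cases h6 : m = 6
  · subst h6
    have : Fact (Nat.Prime 3) := ⟨Nat.prime_three⟩
    have hc : Nat.card (alternatingGroup (Fin 6)) = 360 := by
      have : Nat.factorial 6 = 720 := rfl
      omega
    obtain ⟨R, hR, hR'⟩ := sylow_crit hT hG hK f hf (p := 3) (by rw [hc]; norm_num)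
    have h1 := card_le_factorial hR
    have h2 := sylow_six
    rw [hc] at h1
    have h3 : R.index ≤ 5 := by omega
    have h4 := Nat.factorial_le h3
    have h5 : Nat.factorial 5 = 120 := rfl
    omega
  · let x₀ : Fin m := ⟨0, by omega⟩
    have hmem : ∀ t : alternatingGroup (Fin m), t ∈ Stab {x₀} ↔ (t : Perm (Fin m)) x₀ = x₀ := by
      intro t
      rw [mem_Stab]
      simp only [Finset.mem_singleton]
      constructor
      · intro h
        exact (h x₀).1 rfl
      · intro h x
        constructor
        · rintro rfl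
          exact h
        · intro hx
          apply (t : Perm (Fin m)).injective
          rw [hx, h]
    have hY : Stab {x₀} ≠ (⊤ : Subgroup (alternatingGroup (Fin m))) := by
      intro h
      obtain ⟨t, ht⟩ := exists_move hm x₀ ⟨1, by omega⟩
      have h1 : t ∈ Stab {x₀} := by rw [h]; trivial
      rw [hmem, ht] at h1
      have := congrArg Fin.val h1
      simp [x₀] at this
    obtain ⟨R, hR, hR'⟩ := comp_crit hT hG hK f hf hY (by
      intro φ
      obtain ⟨s, hs⟩ := alt_aut hm h6 φ
      obtain ⟨t, ht⟩ := exists_move hm x₀ (s x₀)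
      refine ⟨t, ?_⟩
      rw [im_Stab (S' := {s x₀}) hs (by
        intro x
        simp only [Finset.mem_singleton]
        exact s.injective.eq_iff.symm)]
      rw [im_Stab (φ := MulAut.conj t) (s := (t : Perm (Fin m))) (S' := {s x₀}) (by
        intro u
        rw [MulAut.conj_apply]
        rfl) (by
        intro x
        simp only [Finset.mem_singleton]
        rw [← ht]
        exact (t : Perm (Fin m)).injective.eq_iff.symm)])
    have hidx : (Stab {x₀} : Subgroup (alternatingGroup (Fin m))).index ≤ m := by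
      have h1 : Nat.card (Fin m) = m := by rw [Nat.card_eq_fintype_card, Fintype.card_fin]
      rw [Subgroup.index]
      refine le_trans (Nat.card_le_card_of_injective
        (fun x : alternatingGroup (Fin m) ⧸ Stab {x₀} => (x.out : Perm (Fin m)) x₀) ?_) h1.le
      intro x y hxy
      have hxy' : (x.out : Perm (Fin m)) x₀ = (y.out : Perm (Fin m)) x₀ := hxy
      rw [← QuotientGroup.out_eq' x, ← QuotientGroup.out_eq' y]
      apply QuotientGroup.eq.2
      rw [hmem]
      change ((x.out : Perm (Fin m))⁻¹ * (y.out : Perm (Fin m))) x₀ = x₀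
      rw [Perm.mul_apply, ← hxy', perm_inv_apply]
    have h1 := card_le_factorial hR
    have h2 : R.index ≤ m - 1 := by omega
    have h3 := Nat.factorial_le h2
    have h4 : m.factorial = m * (m - 1).factorial := by
      obtain ⟨k, rfl⟩ : ∃ k, m = k + 1 := ⟨m - 1, by omega⟩
      rw [Nat.add_sub_cancel, Nat.factorial_succ]
    have h5' : 0 < (m - 1).factorial := Nat.factorial_pos _
    nlinarith

end Pool.Agent.H61.PM
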