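import Pool.Agent.H61.PM.FromWr

/-!
# Maximal subgroups of smallest index

Used for MP_8e3030_al.
-/

namespace Pool.Agent.H61.PM

open Equiv Pool.Agent.H61.CM

/-- the restriction to an invariant subspace -/
def sub {G V : Type} [Group G] [AddCommGroup V] [Module ℂ V] (ρ : Representation ℂ G V)
    (F : Submodule ℂ V) (hF : ∀ g, ∀ v ∈ F, ρ g v ∈ F) : Representation ℂ G F where
  toFun g := (ρ g).restrict (hF g)
  map_one' := by
    apply LinearMap.ext
    intro v
    apply Subtype.ext
    exact rho_one ρ v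
  map_mul' := by
    intro g h
    apply LinearMap.ext
    intro v
    apply Subtype.ext
    exact rho_mul ρ g h v

/-- the permutation representation on the cosets -/
def permRep {A : Type} [Group A] (X : Subgroup A) : Representation ℂ A (A ⧸ X → ℂ) where
  toFun g :=
    { toFun := fun f x => f (g⁻¹ • x)
      map_add' := fun _ _ => rfl
      map_smul' := fun _ _ => rfl }
  map_one' := by
    apply LinearMap.ext
    intro f
    funext x
    change f ((1 : A)⁻¹ • x) = f x
    rw [inv_one, one_smul]
  map_mul' := by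
    intro g h
    apply LinearMap.ext
    intro f
    funext x
    change f ((g * h)⁻¹ • x) = f (h⁻¹ • g⁻¹ • x)
    rw [mul_inv_rev, mul_smul]

/-- a constituent of small degree on which `S` acts non-trivially -/
theorem exists_small {A : Type} [Group A] [Finite A] {S X : Subgroup A} [S.Normal]
    (hX : IsCoatom X) (hSX : ¬ S ≤ X) :
    ∃ (F : Submodule ℂ (A ⧸ X → ℂ)) (hF : ∀ g, ∀ v ∈ F, permRep X g v ∈ F),
      Irred (sub (permRep X) F hF) ∧ (∃ s ∈ S, ∃ u, sub (permRep X) F hF s u ≠ u) ∧
      Occurs X (sub (permRep X) F hF) ∧ Module.finrank ℂ F < X.index := by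
  classical
  have : Fintype (A ⧸ X) := Fintype.ofFinite _
  let σ : (A ⧸ X → ℂ) →ₗ[ℂ] ℂ := ∑ x, LinearMap.proj x
  have hσ : ∀ f, σ f = ∑ x, f x := by
    intro f
    simp only [σ, LinearMap.sum_apply, LinearMap.proj_apply]
  have hσg : ∀ g f, σ (permRep X g f) = σ f := by
    intro g f
    rw [hσ, hσ]
    exact Fintype.sum_equiv (MulAction.toPerm g⁻¹) _ _ (fun x => rfl)
  have hidx : 1 < X.index := Subgroup.one_lt_index_of_ne_top hX.1
  have hcard : Fintype.card (A ⧸ X) = X.index := by
    rw [Subgroup.index, Nat.card_eq_fintype_card]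
  let T : Set (Submodule ℂ (A ⧸ X → ℂ)) :=
    {F | F ≠ ⊥ ∧ F ≤ LinearMap.ker σ ∧ ∀ g, ∀ v ∈ F, permRep X g v ∈ F}
  have hT : T.Nonempty := by
    refine ⟨LinearMap.ker σ, ?_, le_rfl, ?_⟩
    · obtain ⟨x, y, hxy⟩ := Fintype.one_lt_card_iff.1 (by rw [hcard]; exact hidx)
      rw [Submodule.ne_bot_iff]
      refine ⟨Pi.single x 1 - Pi.single y 1, ?_, ?_⟩
      · rw [LinearMap.mem_ker, map_sub, hσ, hσ]
        simp
      · intro h
        have := congrFun h x
        rw [Pi.sub_apply, Pi.single_eq_same, Pi.single_eq_of_ne hxy] at this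
        simp at this
    · intro g v hv
      rw [LinearMap.mem_ker, hσg]
      exact hv
  obtain ⟨F, ⟨hF1, hF2, hF3⟩, hmin⟩ := wellFounded_lt.has_min T hT
  have hirr : Irred (sub (permRep X) F hF3) := by
    refine ⟨?_, ?_⟩
    · obtain ⟨v, hv, hv0⟩ := (Submodule.ne_bot_iff F).1 hF1
      exact ⟨⟨⟨v, hv⟩, 0, fun h => hv0 (congrArg Subtype.val h)⟩⟩
    · intro F' hF'
      by_cases hbot : F' = ⊥
      · exact Or.inl hbot
      right
      have h1 : F'.map F.subtype ∈ T := by
        refine ⟨?_, ?_, ?_⟩
        · intro h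
          apply hbot
          rw [Submodule.eq_bot_iff]
          intro v hv
          have h1 : F.subtype v ∈ F'.map F.subtype := ⟨v, hv, rfl⟩
          rw [h, Submodule.mem_bot] at h1
          exact Subtype.ext h1
        · exact (Submodule.map_subtype_le F F').trans hF2
        · rintro g _ ⟨v, hv, rfl⟩
          exact ⟨_, hF' g v hv, rfl⟩
      have h2 := hmin _ h1
      have h3 : F'.map F.subtype = F := by
        by_contra hne
        exact h2 (lt_of_le_of_ne (Submodule.map_subtype_le F F') hne)
      rw [eq_top_iff]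
      intro v _
      have h4 : (v : A ⧸ X → ℂ) ∈ F'.map F.subtype := by rw [h3]; exact v.2
      obtain ⟨w, hw, hwv⟩ := h4
      have : w = v := Subtype.ext hwv
      rw [← this]
      exact hw
  refine ⟨F, hF3, hirr, ?_, ?_, ?_⟩
  · by_contra hcon
    push Not at hcon
    obtain ⟨f, hf, hf0⟩ := (Submodule.ne_bot_iff F).1 hF1
    have hinv : ∀ s ∈ S, ∀ x, f (s⁻¹ • x) = f x := by
      intro s hs x
      have := congrArg Subtype.val (hcon s hs ⟨f, hf⟩)
      exact congrFun this x
    have hXS : X ⊔ S = ⊤ := hX.2 _ (lt_of_le_of_ne le_sup_left (fun h => hSX (by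
      rw [h]; exact le_sup_right)))
    have hconst : ∀ x, f x = f ((1 : A) : A ⧸ X) := by
      intro x
      obtain ⟨g, rfl⟩ := QuotientGroup.mk_surjective x
      have h1 : g ∈ X ⊔ S := by rw [hXS]; trivial
      rw [sup_comm, Subgroup.mem_sup_of_normal_left] at h1
      obtain ⟨s, hs, x, hx, rfl⟩ := h1
      have h2 := hinv s⁻¹ (S.inv_mem hs) ((1 : A) : A ⧸ X)
      rw [← h2, inv_inv]
      congr 1
      change ((s * x : A) : A ⧸ X) = ((s * 1 : A) : A ⧸ X)
      rw [QuotientGroup.eq]
      have h3 : (s * x)⁻¹ * (s * 1) = x⁻¹ := by group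
      rw [h3]
      exact X.inv_mem hx
    have h4 : σ f = 0 := hF2 hf
    rw [hσ, Finset.sum_congr rfl (fun x _ => hconst x), Finset.sum_const, Finset.card_univ,
      hcard, nsmul_eq_mul] at h4
    have h5 : (X.index : ℂ) ≠ 0 := by
      exact_mod_cast (by omega : X.index ≠ 0)
    have h6 := (mul_eq_zero.1 h4).resolve_left h5
    apply hf0
    funext x
    rw [hconst x, h6]
    rfl
  · exact ⟨F.subtype, F.injective_subtype, fun g v x => rfl⟩
  · rw [← hcard, ← Module.finrank_fintype_fun_eq_card ℂ]
    apply lt_of_le_of_lt (Submodule.finrank_mono hF2)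
    apply Submodule.finrank_lt
    intro h
    have h1 : (fun _ => (1 : ℂ)) ∈ LinearMap.ker σ := by rw [h]; trivial
    rw [LinearMap.mem_ker, hσ, Finset.sum_const, Finset.card_univ, hcard, nsmul_eq_mul,
      mul_one] at h1
    have h5 : (X.index : ℂ) ≠ 0 := by
      exact_mod_cast (by omega : X.index ≠ 0)
    exact h5 h1

/-- no maximal subgroup has smallest index among the subgroups not containing the socle -/
theorem no_small_coatom {G A ι : Type} [Group G] [Group A] [Finite A] {S : Subgroup A}
    [S.Normal] [IsSimpleGroup S] (hSn : ∃ a b : S, a * b ≠ b * a) [Finite G] [Finite ι]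
    [Nonempty ι] (E : Em G A ι S) (hG : AllMonomial G) {X : Subgroup A} (hX : IsCoatom X)
    (hSX : ¬ S ≤ X) (hXS : X ⊓ S ≠ ⊥)
    (hmin : ∀ U : Subgroup A, ¬ S ≤ U → X.index ≤ U.index) : False := by
  obtain ⟨F, hF, hirr, hS, hocc, hlt⟩ := exists_small (S := S) hX hSX
  obtain ⟨U, v, hv, hU, -, hrk⟩ := mono_of_meet hSn E hG hirr hX hXS hocc hS
  have hSU : S ≤ U := by
    by_contra hcon
    have := hmin U hcon
    omega
  apply hv
  apply fix_zero hirr hS
  exact fix_of_scalar hSn (fun s hs => hU s (hSU hs))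

/-- the criterion: a subgroup whose class is invariant under all automorphisms has index at least
twice the smallest index -/
theorem index_crit {G T ι : Type} [Group G] [Finite G] [Group T] [Finite T] [IsSimpleGroup T]
    (hT : ∃ a b : T, a * b ≠ b * a) [Finite ι] (i₀ : ι) (W : Wr G T ι) (hG : AllMonomial G)
    {Y : Subgroup T} (hY : Y ≠ ⊤)
    (hcls : ∀ φ : MulAut T, ∃ t : T, im φ Y = im (MulAut.conj t) Y) :
    ∃ R : Subgroup T, R ≠ ⊤ ∧ 2 * R.index ≤ Y.index := by
  classical
  have : Nonempty ι := ⟨i₀⟩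
  by_cases hYb : Y = ⊥
  · -- a cyclic subgroup
    obtain ⟨b, hb⟩ := exists_ne (1 : T)
    refine ⟨Subgroup.zpowers b, ?_, ?_⟩
    · intro h
      obtain ⟨x, y, hxy⟩ := hT
      have hx : x ∈ Subgroup.zpowers b := by rw [h]; trivial
      have hy : y ∈ Subgroup.zpowers b := by rw [h]; trivial
      obtain ⟨m, rfl⟩ := Subgroup.mem_zpowers_iff.1 hx
      obtain ⟨n, rfl⟩ := Subgroup.mem_zpowers_iff.1 hy
      exact hxy (by rw [← zpow_add, ← zpow_add, add_comm])
    · rw [hYb, Subgroup.index_bot, ← Subgroup.card_mul_index (Subgroup.zpowers b)]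
      apply Nat.mul_le_mul_right
      rw [Nat.card_zpowers]
      by_contra hcon
      have h1 : 0 < orderOf b := orderOf_pos b
      have h2 : orderOf b = 1 := by omega
      exact hb (orderOf_eq_one_iff.1 h2)
  by_contra hno
  push Not at hno
  have hle := conj_le W i₀
  obtain ⟨hs, hsn⟩ := Inn_simple hT (AutG W i₀) hle
  obtain ⟨E⟩ := exists_em W i₀
  -- the map from `T`
  let j : T →* AutG W i₀ :=
    { toFun := fun t => ⟨MulAut.conj t, hle ⟨t, rfl⟩⟩
      map_one' := by
        apply Subtype.ext
        exact map_one _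
      map_mul' := by
        intro s t
        apply Subtype.ext
        exact map_mul _ _ _ }
  have hj : j.range = Inn (AutG W i₀) := by
    ext φ
    constructor
    · rintro ⟨t, rfl⟩
      exact mem_Inn.2 ⟨t, fun s => rfl⟩
    · intro h
      obtain ⟨t, ht⟩ := mem_Inn.1 h
      refine ⟨t, ?_⟩
      apply Subtype.ext
      apply MulEquiv.ext
      intro s
      exact (ht s).symm
  have hjinj : Function.Injective j := by
    rw [← MonoidHom.ker_eq_bot_iff]
    apply (inferInstance : j.ker.Normal).eq_bot_or_eq_top.resolve_right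
    intro h
    obtain ⟨a, b, hab⟩ := hT
    have h1 : a ∈ j.ker := by rw [h]; trivial
    have h2 : j a = 1 := h1
    have h3 := congrArg (fun φ : AutG W i₀ => (φ : MulAut T) b) h2
    have h4 : a * b * a⁻¹ = b := h3
    exact hab (by rw [mul_inv_eq_iff_eq_mul] at h4; exact h4)
  -- the stabiliser of `Y`
  let N : Subgroup (AutG W i₀) :=
    { carrier := {φ | im (φ : MulAut T) Y = Y}
      one_mem' := im_id (fun t => rfl) Y
      mul_mem' := by
        intro φ ψ hφ hψ
        change im ((φ * ψ : AutG W i₀) : MulAut T) Y = Y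
        rw [im_comp (φ := (φ : MulAut T)) (ψ := (ψ : MulAut T)) (fun t => rfl),
          show im (ψ : MulAut T) Y = Y from hψ, show im (φ : MulAut T) Y = Y from hφ]
      inv_mem' := by
        intro φ hφ
        change im ((φ⁻¹ : AutG W i₀) : MulAut T) Y = Y
        conv_lhs => rw [← (show im (φ : MulAut T) Y = Y from hφ)]
        rw [← im_comp (φ := ((φ⁻¹ : AutG W i₀) : MulAut T)) (ψ := (φ : MulAut T))
          (χ := (1 : MulAut T)) (fun t => (MulAut.inv_apply_self _ _ _).symm)]
        exact im_id (fun t => rfl) Y }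
  have hN : ∀ φ : AutG W i₀, φ ∈ N ↔ im (φ : MulAut T) Y = Y := fun _ => Iff.rfl
  have hNS : ¬ Inn (AutG W i₀) ≤ N := by
    intro h
    have hn : Y.Normal := by
      refine ⟨?_⟩
      intro y hy t
      have h1 : j t ∈ N := h (by rw [← hj]; exact ⟨t, rfl⟩)
      have h2 : im (MulAut.conj t) Y = Y := h1
      rw [← h2, ← MulAut.conj_apply, apply_mem_im]
      exact hy
    rcases hn.eq_bot_or_eq_top with h1 | h1
    · exact hYb h1
    · exact hY h1
  have hNidx : N.index ≤ Y.index := by
    choose t ht using fun φ : AutG W i₀ => hcls φ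
    rw [Subgroup.index, Subgroup.index]
    apply Nat.card_le_card_of_injective (fun x : AutG W i₀ ⧸ N => ((t x.out : T) : T ⧸ Y))
    intro x y hxy
    have h1 : (t x.out)⁻¹ * t y.out ∈ Y := QuotientGroup.eq.1 hxy
    rw [← QuotientGroup.out_eq' x, ← QuotientGroup.out_eq' y]
    apply QuotientGroup.eq.2
    rw [hN]
    have h2 : im ((y.out : AutG W i₀) : MulAut T) Y = im ((x.out : AutG W i₀) : MulAut T) Y := by
      rw [ht, ht]
      have h3 : im (MulAut.conj (t y.out)) Y =
          im (MulAut.conj (t x.out)) (im (MulAut.conj ((t x.out)⁻¹ * t y.out)) Y) := by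
        apply im_comp
        intro s
        simp only [MulAut.conj_apply]
        group
      rw [h3, im_conj_self h1]
    have h4 : im (((x.out)⁻¹ * y.out : AutG W i₀) : MulAut T) Y =
        im (((x.out)⁻¹ : AutG W i₀) : MulAut T) (im ((y.out : AutG W i₀) : MulAut T) Y) :=
      im_comp (fun t => rfl) Y
    rw [h4, h2, ← im_comp (χ := (1 : MulAut T))]
    · exact im_id (fun t => rfl) Y
    · intro s
      exact (MulAut.inv_apply_self _ _ _).symm
  -- a subgroup of smallest index
  obtain ⟨X, hX, hXmin⟩ := Set.exists_min_image {U : Subgroup (AutG W i₀) | ¬ Inn (AutG W i₀) ≤ U}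
    Subgroup.index (Set.toFinite _) ⟨N, hNS⟩
  have hXY : X.index ≤ Y.index := (hXmin N hNS).trans hNidx
  have hR : ∀ U : Subgroup (AutG W i₀), ¬ Inn (AutG W i₀) ≤ U →
      Y.index < 2 * U.relIndex (Inn (AutG W i₀)) := by
    intro U hU
    rw [← hj, ← Subgroup.index_comap]
    apply hno
    intro h
    apply hU
    rw [← hj]
    rintro _ ⟨t, rfl⟩
    have : t ∈ U.comap j := by rw [h]; trivial
    exact this
  have hcoatom : IsCoatom X := by
    constructor
    · intro h
      apply hX
      rw [h]
      exact le_top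
    · intro Z hZ
      by_contra hZt
      by_cases hSZ : Inn (AutG W i₀) ≤ Z
      · have h1 := Subgroup.relIndex_mul_index hZ.le
        have h2 : 1 < Z.index := Subgroup.one_lt_index_of_ne_top hZt
        have h3 : X.relIndex (Inn (AutG W i₀)) ≤ X.relIndex Z :=
          Subgroup.relIndex_le_of_le_right hSZ (by
            intro h0
            rw [h0, zero_mul] at h1
            exact Subgroup.index_ne_zero_of_finite h1.symm)
        have h4 := hR X hX
        have h5 : 2 * X.relIndex Z ≤ X.index := by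
          rw [← h1, mul_comm]
          exact Nat.mul_le_mul_left _ h2
        omega
      · have h1 := hXmin Z hSZ
        have h2 := Subgroup.index_strictAnti hZ
        omega
  apply no_small_coatom hsn E hG hcoatom hX _ hXmin
  intro hmeet
  have h1 : X.relIndex (Inn (AutG W i₀)) = Nat.card T := by
    rw [← hj, ← Subgroup.index_comap]
    have h2 : X.comap j = ⊥ := by
      rw [eq_bot_iff]
      intro t ht
      have h3 : j t ∈ X ⊓ Inn (AutG W i₀) := ⟨ht, by rw [← hj]; exact ⟨t, rfl⟩⟩
      rw [hmeet, Subgroup.mem_bot] at h3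
      rw [Subgroup.mem_bot]
      apply hjinj
      rw [h3, map_one]
    rw [h2, Subgroup.index_bot]
  have h2 : X.relIndex (Inn (AutG W i₀)) ≤ X.index := by
    have h3 := Subgroup.relIndex_le_of_le_right (H := X) (K := Inn (AutG W i₀)) (L := ⊤) le_top
      (by rw [Subgroup.relIndex_top_right]; exact Subgroup.index_ne_zero_of_finite)
    rwa [Subgroup.relIndex_top_right] at h3
  have h3 : 1 < Nat.card Y := by
    by_contra hcon
    have h4 : 0 < Nat.card Y := Nat.card_pos
    exact hYb (Subgroup.card_eq_one.1 (by omega))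
  have h4 := Subgroup.card_mul_index Y
  have h5 : 0 < Y.index := Nat.pos_of_ne_zero Subgroup.index_ne_zero_of_finite
  nlinarith

end Pool.Agent.H61.PM
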