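import Mathlib

/-!
# `P`-characters and monomial characters

Used for MP_8e3030_al.  Irreducible complex representations of a finite group which occur in the
permutation representation on the cosets of a maximal subgroup, and representations induced from
representations of degree one.
-/

namespace Pool.Agent.H61.PM

section defs
variable {G V : Type} [Group G] [AddCommGroup V] [Module ℂ V]

/-- `V` is an irreducible representation: it is not zero and has no invariant subspaces besides
`0` and `V` -/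
def Irred (ρ : Representation ℂ G V) : Prop :=
  Nontrivial V ∧ ∀ S : Submodule ℂ V, (∀ g, ∀ v ∈ S, ρ g v ∈ S) → S = ⊥ ∨ S = ⊤

/-- `V` embeds in the permutation representation of `G` on the functions on the cosets of `H` -/
def Occurs (H : Subgroup G) (ρ : Representation ℂ G V) : Prop :=
  ∃ Φ : V →ₗ[ℂ] (G ⧸ H → ℂ), Function.Injective Φ ∧
    ∀ (g : G) (v : V) (x : G ⧸ H), Φ (ρ g v) x = Φ v (g⁻¹ • x)

/-- `V` is induced from a representation of degree one of a subgroup `U`: there is a vector `v`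
different from `0` on which `U` acts by scalars, whose images under `G` span `V`, and
`dim V = |G : U|` -/
def Monomial (ρ : Representation ℂ G V) : Prop :=
  ∃ (U : Subgroup G) (v : V), v ≠ 0 ∧ (∀ u ∈ U, ∃ c : ℂ, ρ u v = c • v) ∧
    Submodule.span ℂ (Set.range fun g => ρ g v) = ⊤ ∧ Module.finrank ℂ V = U.index

end defs

/-- all `P`-characters of `G` are monomial -/
def AllMonomial (G : Type) [Group G] : Prop :=
  ∀ (V : Type) [AddCommGroup V] [Module ℂ V] [FiniteDimensional ℂ V] (ρ : Representation ℂ G V),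
    Irred ρ → (∃ H : Subgroup G, IsCoatom H ∧ Occurs H ρ) → Monomial ρ

section lemmas
variable {G V : Type} [Group G] [AddCommGroup V] [Module ℂ V] {ρ : Representation ℂ G V}

theorem rho_mul (ρ : Representation ℂ G V) (g h : G) (v : V) : ρ (g * h) v = ρ g (ρ h v) := by
  rw [map_mul]; rfl

theorem rho_one (ρ : Representation ℂ G V) (v : V) : ρ 1 v = v := by
  rw [map_one]; rfl

theorem rho_inv (ρ : Representation ℂ G V) (g : G) (v : V) : ρ g⁻¹ (ρ g v) = v := by
  rw [← rho_mul, inv_mul_cancel, rho_one]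

theorem rho_inv' (ρ : Representation ℂ G V) (g : G) (v : V) : ρ g (ρ g⁻¹ v) = v := by
  rw [← rho_mul, mul_inv_cancel, rho_one]

theorem rho_ne {g : G} {v : V} (hv : v ≠ 0) : ρ g v ≠ 0 := by
  intro h
  apply hv
  rw [← rho_inv ρ g v, h, map_zero]

/-- a functional whose translates all vanish at a vector -/
theorem eq_zero_of_fun (hρ : Irred ρ) {l : V →ₗ[ℂ] ℂ} (hl : l ≠ 0) {v : V}
    (h : ∀ g, l (ρ g v) = 0) : v = 0 := by
  let S : Submodule ℂ V :=
    { carrier := {w | ∀ g, l (ρ g w) = 0}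
      add_mem' := by
        intro a b ha hb g
        rw [map_add, map_add, ha g, hb g, add_zero]
      zero_mem' := by
        intro g
        rw [map_zero, map_zero]
      smul_mem' := by
        intro c a ha g
        rw [map_smul, map_smul, ha g, smul_zero] }
  rcases hρ.2 S (by
    intro g w hw g'
    rw [← rho_mul]
    exact hw _) with h1 | h1
  · have : v ∈ S := h
    rw [h1] at this
    exact (Submodule.mem_bot ℂ).1 this
  · exfalso
    apply hl
    ext w
    have : w ∈ S := by rw [h1]; trivial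
    have := this 1
    rwa [rho_one] at this

/-- Frobenius reciprocity -/
theorem occurs_of_fun (hρ : Irred ρ) {H : Subgroup G} {l : V →ₗ[ℂ] ℂ} (hl : l ≠ 0)
    (hH : ∀ h ∈ H, ∀ v, l (ρ h v) = l v) : Occurs H ρ := by
  let Φ : V →ₗ[ℂ] (G ⧸ H → ℂ) :=
    { toFun := fun v x => l (ρ (Quotient.out x)⁻¹ v)
      map_add' := by
        intro a b
        funext x
        simp only [map_add, Pi.add_apply]
      map_smul' := by
        intro c a
        funext x
        simp only [map_smul, Pi.smul_apply, RingHom.id_apply] }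
  have hΦ : ∀ v (g : G), Φ v (g : G ⧸ H) = l (ρ g⁻¹ v) := by
    intro v g
    change l (ρ (Quotient.out (g : G ⧸ H))⁻¹ v) = _
    have h1 : ((Quotient.out (g : G ⧸ H))⁻¹ * g) ∈ H := by
      rw [← QuotientGroup.eq]
      exact QuotientGroup.out_eq' _
    have h2 : (Quotient.out (g : G ⧸ H))⁻¹ = ((Quotient.out (g : G ⧸ H))⁻¹ * g) * g⁻¹ := by group
    rw [h2, rho_mul, hH _ h1]
  refine ⟨Φ, ?_, ?_⟩
  · rw [← LinearMap.ker_eq_bot, Submodule.eq_bot_iff]
    intro v hv
    apply eq_zero_of_fun hρ hl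
    intro g
    have h1 := hΦ v g⁻¹
    rw [inv_inv] at h1
    rw [← h1, show Φ v = 0 from hv]
    rfl
  · intro g v x
    obtain ⟨k, rfl⟩ := QuotientGroup.mk_surjective x
    have h1 : (g⁻¹ • (k : G ⧸ H)) = ((g⁻¹ * k : G) : G ⧸ H) := rfl
    rw [h1, hΦ, hΦ, mul_inv_rev, inv_inv, rho_mul]

theorem fun_of_occurs {H : Subgroup G} (hn : Nontrivial V) (h : Occurs H ρ) :
    ∃ l : V →ₗ[ℂ] ℂ, l ≠ 0 ∧ ∀ h ∈ H, ∀ v, l (ρ h v) = l v := by
  obtain ⟨Φ, hinj, hΦ⟩ := h
  refine ⟨(LinearMap.proj ((1 : G) : G ⧸ H)).comp Φ, ?_, ?_⟩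
  · intro h0
    obtain ⟨v, hv⟩ := exists_ne (0 : V)
    apply hv
    apply hinj
    rw [map_zero]
    funext x
    obtain ⟨k, rfl⟩ := QuotientGroup.mk_surjective x
    have h1 := hΦ k⁻¹ v ((1 : G) : G ⧸ H)
    have h2 : (k⁻¹⁻¹ • ((1 : G) : G ⧸ H)) = ((k : G) : G ⧸ H) := by
      rw [inv_inv]
      change ((k * 1 : G) : G ⧸ H) = _
      rw [mul_one]
    rw [h2] at h1
    rw [Pi.zero_apply, ← h1]
    exact LinearMap.congr_fun h0 (ρ k⁻¹ v)
  · intro h hh v
    change Φ (ρ h v) ((1 : G) : G ⧸ H) = Φ v ((1 : G) : G ⧸ H)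
    have h2 : h⁻¹ • ((1 : G) : G ⧸ H) = ((1 : G) : G ⧸ H) := by
      change ((h⁻¹ * 1 : G) : G ⧸ H) = _
      rw [QuotientGroup.eq]
      simpa using hh
    rw [hΦ, h2]

/-- a monomial representation has a basis whose lines are permuted transitively -/
theorem Monomial.basis [Finite G] (h : Monomial ρ) :
    ∃ (U : Subgroup G) (b : Module.Basis (G ⧸ U) ℂ V), ∀ g j, ∃ c : ℂ, ρ g (b j) = c • b (g • j) := by
  classical
  have : Fintype G := Fintype.ofFinite G
  obtain ⟨U, v, hv, hU, hsp, hrk⟩ := h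
  have : Fintype (G ⧸ U) := Fintype.ofFinite _
  let f : G ⧸ U → V := fun j => ρ j.out v
  have hf : ∀ g : G, ∃ c : ℂ, ρ g v = c • f (g : G ⧸ U) := by
    intro g
    have h1 : ((Quotient.out (g : G ⧸ U))⁻¹ * g) ∈ U := by
      rw [← QuotientGroup.eq]
      exact QuotientGroup.out_eq' _
    obtain ⟨c, hc⟩ := hU _ h1
    refine ⟨c, ?_⟩
    change ρ g v = c • ρ (Quotient.out (g : G ⧸ U)) v
    rw [← map_smul, ← hc, ← rho_mul]
    congr 2
    group
  have hspan : ⊤ ≤ Submodule.span ℂ (Set.range f) := by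
    rw [← hsp, Submodule.span_le]
    rintro _ ⟨g, rfl⟩
    obtain ⟨c, hc⟩ := hf g
    change ρ g v ∈ _
    rw [hc]
    exact Submodule.smul_mem _ _ (Submodule.subset_span ⟨_, rfl⟩)
  have hcard : Fintype.card (G ⧸ U) = Module.finrank ℂ V := by
    rw [hrk, Subgroup.index, Nat.card_eq_fintype_card]
  refine ⟨U, basisOfTopLeSpanOfCardEqFinrank f hspan hcard, ?_⟩
  intro g j
  rw [coe_basisOfTopLeSpanOfCardEqFinrank]
  have h1 : ρ g (f j) = ρ (g * j.out) v := by
    change ρ g (ρ j.out v) = _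
    rw [rho_mul]
  rw [h1]
  obtain ⟨c, hc⟩ := hf (g * j.out)
  refine ⟨c, ?_⟩
  rw [hc]
  congr 2
  have h2 : ((g * j.out : G) : G ⧸ U) = g • ((j.out : G) : G ⧸ U) := rfl
  rw [h2]
  congr 1
  exact QuotientGroup.out_eq' j

/-- an irreducible representation with a basis whose lines are permuted is monomial -/
theorem monomial_of_basis [Finite G] (hρ : Irred ρ) {J : Type*} [Finite J]
    (b : Module.Basis J ℂ V) (h : ∀ g j, ∃ j', ∃ c : ℂ, ρ g (b j) = c • b j') : Monomial ρ := by
  classical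
  have : Fintype J := Fintype.ofFinite J
  have : Fintype G := Fintype.ofFinite G
  have hfd : FiniteDimensional ℂ V := b.finiteDimensional_of_finite
  obtain ⟨⟨j₀⟩⟩ : Nonempty (Nonempty J) := by
    by_contra hcon
    rw [not_nonempty_iff] at hcon
    have h1 : IsEmpty J := by
      refine ⟨fun j => hcon.false ⟨j⟩⟩
    obtain ⟨v, hv⟩ := @exists_ne V hρ.1 (0 : V)
    apply hv
    apply b.repr.injective
    ext j
    exact h1.elim j
  choose p c hc using h
  have hb : ∀ j, b j ≠ 0 := fun j => b.ne_zero j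
  have hc0 : ∀ g j, c g j ≠ 0 := by
    intro g j h0
    apply rho_ne (ρ := ρ) (g := g) (hb j)
    rw [hc, h0, zero_smul]
  let U : Subgroup G :=
    { carrier := {g | ∃ c : ℂ, ρ g (b j₀) = c • b j₀}
      one_mem' := ⟨1, by rw [rho_one, one_smul]⟩
      mul_mem' := by
        rintro g h ⟨x, hx⟩ ⟨y, hy⟩
        exact ⟨y * x, by rw [rho_mul, hy, map_smul, hx, smul_smul]⟩
      inv_mem' := by
        rintro g ⟨x, hx⟩
        have hx0 : x ≠ 0 := by
          rintro rfl
          apply rho_ne (ρ := ρ) (g := g) (hb j₀)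
          rw [hx, zero_smul]
        refine ⟨x⁻¹, ?_⟩
        have h1 := congrArg (ρ g⁻¹) hx
        rw [rho_inv, map_smul] at h1
        conv_rhs => rw [h1]
        rw [smul_smul, inv_mul_cancel₀ hx0, one_smul] }
  have hspan : Submodule.span ℂ (Set.range fun g => ρ g (b j₀)) = ⊤ := by
    rcases hρ.2 (Submodule.span ℂ (Set.range fun g => ρ g (b j₀))) (by
      intro g v hv
      have : (Submodule.span ℂ (Set.range fun g => ρ g (b j₀))) ≤
          (Submodule.span ℂ (Set.range fun g => ρ g (b j₀))).comap (ρ g) := by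
        rw [Submodule.span_le]
        rintro _ ⟨k, rfl⟩
        apply Submodule.subset_span
        exact ⟨g * k, by simp only [rho_mul]⟩
      exact this hv) with h1 | h1
    · exfalso
      apply hb j₀
      rw [← Submodule.mem_bot ℂ, ← h1]
      exact Submodule.subset_span ⟨1, by simp only [rho_one]⟩
    · exact h1
  refine ⟨U, b j₀, hb j₀, fun u hu => hu, hspan, le_antisymm ?_ ?_⟩
  · have : Fintype (G ⧸ U) := Fintype.ofFinite _
    let f : G ⧸ U → V := fun j => ρ j.out (b j₀)
    have h2 : ⊤ ≤ Submodule.span ℂ (Set.range f) := by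
      rw [← hspan, Submodule.span_le]
      rintro _ ⟨g, rfl⟩
      have h1 : ((Quotient.out (g : G ⧸ U))⁻¹ * g) ∈ U := by
        rw [← QuotientGroup.eq]
        exact QuotientGroup.out_eq' _
      obtain ⟨x, hx⟩ := h1
      have h3 : ρ g (b j₀) = x • f (g : G ⧸ U) := by
        change ρ g (b j₀) = x • ρ (Quotient.out (g : G ⧸ U)) (b j₀)
        rw [← map_smul, ← hx, ← rho_mul]
        congr 2
        group
      change ρ g (b j₀) ∈ _
      rw [h3]
      exact Submodule.smul_mem _ _ (Submodule.subset_span ⟨_, rfl⟩)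
    have h3 : Module.finrank ℂ V ≤ Fintype.card (G ⧸ U) := by
      rw [← finrank_top, ← top_le_iff.1 h2]
      exact finrank_range_le_card f
    rw [Subgroup.index, Nat.card_eq_fintype_card]
    exact h3
  · rw [Module.finrank_eq_nat_card_basis b, Subgroup.index]
    have h4 : ∀ x : G ⧸ U, ∀ g : G, (g : G ⧸ U) = x → p g j₀ = p x.out j₀ := by
      rintro x g rfl
      have h1 : ((Quotient.out (g : G ⧸ U))⁻¹ * g) ∈ U := by
        rw [← QuotientGroup.eq]
        exact QuotientGroup.out_eq' _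
      obtain ⟨x, hx⟩ := h1
      have hx0 : x ≠ 0 := by
        rintro rfl
        apply rho_ne (ρ := ρ) (g := (Quotient.out (g : G ⧸ U))⁻¹ * g) (hb j₀)
        rw [hx, zero_smul]
      have h3 : ρ g (b j₀) = x • ρ (Quotient.out (g : G ⧸ U)) (b j₀) := by
        rw [← map_smul, ← hx, ← rho_mul]
        congr 2
        group
      rw [hc, hc] at h3
      by_contra hne
      have h5 := congrArg (fun w => b.repr w (p g j₀)) h3
      simp only [map_smul, Module.Basis.repr_self, Finsupp.smul_apply, smul_eq_mul,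
        Finsupp.single_eq_same, mul_one] at h5
      rw [Finsupp.single_eq_of_ne hne] at h5
      exact hc0 g j₀ (by rw [h5]; ring)
    apply Nat.card_le_card_of_injective (fun x : G ⧸ U => p x.out j₀)
    intro x y hxy
    have hxy' : p x.out j₀ = p y.out j₀ := hxy
    rw [← QuotientGroup.out_eq' x, ← QuotientGroup.out_eq' y]
    apply QuotientGroup.eq.2
    refine ⟨c y.out j₀ * (c x.out j₀)⁻¹, ?_⟩
    rw [rho_mul, hc y.out, ← hxy', map_smul]
    have h6 : b (p x.out j₀) = (c x.out j₀)⁻¹ • ρ x.out (b j₀) := by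
      rw [hc, smul_smul, inv_mul_cancel₀ (hc0 _ _), one_smul]
    rw [h6, map_smul, rho_inv, smul_smul]

/-- passing to a quotient -/
theorem Irred.comp {G' : Type} [Group G'] {f : G →* G'} {ρ' : Representation ℂ G' V}
    (hf : Function.Surjective f) (h : Irred ρ') :
    Irred (V := V) (ρ'.comp f : Representation ℂ G V) := by
  refine ⟨h.1, fun S hS => h.2 S (fun g v hv => ?_)⟩
  obtain ⟨g, rfl⟩ := hf g
  exact hS g v hv

theorem Monomial.of_comp [Finite G] {G' : Type} [Group G'] [Finite G'] {f : G →* G'}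
    {ρ' : Representation ℂ G' V} (hf : Function.Surjective f) (hρ : Irred ρ')
    (h : Monomial (V := V) (ρ'.comp f : Representation ℂ G V)) : Monomial ρ' := by
  obtain ⟨U, b, hb⟩ := h.basis
  apply monomial_of_basis hρ b
  intro g j
  obtain ⟨g, rfl⟩ := hf g
  obtain ⟨c, hc⟩ := hb g j
  exact ⟨_, c, hc⟩

/-- quotients inherit the property -/
theorem AllMonomial.quot [Finite G] {G' : Type} [Group G'] [Finite G'] {f : G →* G'}
    (hf : Function.Surjective f) (hG : AllMonomial G) : AllMonomial G' := by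
  intro V _ _ _ ρ hρ hH
  obtain ⟨H, hH, hocc⟩ := hH
  apply Monomial.of_comp hf hρ
  apply hG V _ (hρ.comp hf)
  obtain ⟨l, hl, hlH⟩ := fun_of_occurs hρ.1 hocc
  refine ⟨H.comap f, ?_, ?_⟩
  · exact Subgroup.isCoatom_comap_of_surjective hf hH
  · apply occurs_of_fun (hρ.comp hf) hl
    intro h hh v
    exact hlH _ hh v

end lemmas

end Pool.Agent.H61.PM
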