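import Pool.Agent.H61.PM.Defs

/-!
# Groups mapping to a wreath product

Used for MP_8e3030_al.  `Em G A ι S` : the group `G` maps to `A ≀ Sym ι`, the image contains
`S ^ ι`, is transitive on `ι`, and the stabiliser of each index maps onto `A`.
-/

namespace Pool.Agent.H61.PM

open Equiv

/-- a homomorphism to a wreath product -/
structure Em (G A ι : Type*) [Group G] [Group A] (S : Subgroup A) where
  κ : G →* Perm ι
  α : G → ι → A
  coc : ∀ g h i, α (g * h) i = α g (κ h i) * α h i
  full : ∀ t : ι → A, (∀ i, t i ∈ S) → ∃ m, κ m = 1 ∧ ∀ i, α m i = t i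
  trans : ∀ i j, ∃ g, κ g i = j
  onto : ∀ i (a : A), ∃ g, κ g i = i ∧ α g i = a

namespace Em

variable {G A ι : Type} [Group G] [Group A] {S : Subgroup A} (E : Em G A ι S)

theorem α_one (i : ι) : E.α 1 i = 1 := by
  have h := E.coc 1 1 i
  rw [map_one, Perm.one_apply, mul_one] at h
  exact left_eq_mul.1 h

theorem κ_inv (g : G) (i : ι) : E.κ g⁻¹ (E.κ g i) = i := by
  rw [← Perm.mul_apply, ← map_mul, inv_mul_cancel, map_one, Perm.one_apply]

theorem κ_inv' (g : G) (i : ι) : E.κ g (E.κ g⁻¹ i) = i := by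
  rw [← Perm.mul_apply, ← map_mul, mul_inv_cancel, map_one, Perm.one_apply]

theorem α_inv (g : G) (i : ι) : E.α g⁻¹ (E.κ g i) = (E.α g i)⁻¹ := by
  have h := E.coc g⁻¹ g i
  rw [inv_mul_cancel, E.α_one] at h
  exact eq_inv_of_mul_eq_one_left h.symm

/-- the product action stabiliser -/
def H (X : Subgroup A) : Subgroup G where
  carrier := {g | ∀ i, E.α g i ∈ X}
  one_mem' := by
    intro i
    rw [E.α_one]
    exact X.one_mem
  mul_mem' := by
    intro g h hg hh i
    rw [E.coc]
    exact X.mul_mem (hg _) (hh _)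
  inv_mem' := by
    intro g hg i
    have h := E.α_inv g (E.κ g⁻¹ i)
    rw [E.κ_inv'] at h
    rw [h]
    exact X.inv_mem (hg _)

theorem mem_H {X : Subgroup A} {g : G} : g ∈ E.H X ↔ ∀ i, E.α g i ∈ X := Iff.rfl

/-- every element can be moved into `H` by an element of the base group -/
theorem move {X : Subgroup A} (hX : ∀ a : A, ∃ t ∈ S, t * a ∈ X) (g : G) (P : ι → Prop)
    (hP : ∀ i, P i → E.α g i ∈ X) :
    ∃ m, E.κ m = 1 ∧ (∀ i, E.α m i ∈ S) ∧ m * g ∈ E.H X ∧ ∀ i, P i → E.α (m * g) i = E.α g i := by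
  classical
  choose t ht htX using hX
  obtain ⟨m, hm, hmt⟩ := E.full
    (fun j => if P (E.κ g⁻¹ j) then 1 else t (E.α g (E.κ g⁻¹ j))) (by
      intro i
      split_ifs
      · exact S.one_mem
      · exact ht _)
  have h1 : ∀ i, E.α m (E.κ g i) = if P i then 1 else t (E.α g i) := by
    intro i
    rw [hmt, E.κ_inv]
  refine ⟨m, hm, ?_, ?_, ?_⟩
  · intro i
    rw [hmt]
    split_ifs
    · exact S.one_mem
    · exact ht _
  · intro i
    rw [E.coc, h1]
    split_ifs with h
    · rw [one_mul]
      exact hP i h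
    · exact htX _
  · intro i hi
    rw [E.coc, h1, if_pos hi, one_mul]

variable [IsSimpleGroup S]

theorem normal_top {A : Type*} [Group A] {S : Subgroup A} [IsSimpleGroup S] {P : Subgroup A}
    (hPS : P ≤ S) (hP : P ≠ ⊥) (hn : ∀ s ∈ S, ∀ p ∈ P, s * p * s⁻¹ ∈ P) : S ≤ P := by
  have h1 : (P.subgroupOf S).Normal := by
    refine ⟨?_⟩
    intro p hp s
    exact hn s s.2 p hp
  rcases h1.eq_bot_or_eq_top with h | h
  · exfalso
    apply hP
    rw [eq_bot_iff]
    intro p hp
    have h2 : (⟨p, hPS hp⟩ : S) ∈ P.subgroupOf S := hp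
    rw [h, Subgroup.mem_bot] at h2
    rw [Subgroup.mem_bot]
    exact congrArg Subtype.val h2
  · intro s hs
    have h2 : (⟨s, hs⟩ : S) ∈ P.subgroupOf S := by rw [h]; trivial
    exact h2

/-- the stabiliser in the product action is a maximal subgroup -/
theorem coatom [S.Normal] [Finite ι] [Nonempty ι] {X : Subgroup A} (hX : IsCoatom X)
    (hXS : ¬ S ≤ X) (hr : X ⊓ S ≠ ⊥) : IsCoatom (E.H X) := by
  classical
  -- `S X = A`
  have hSX : ∀ a : A, ∃ t ∈ S, t * a ∈ X := by
    intro a
    have h1 : X ⊔ S = ⊤ := hX.2 _ (lt_of_le_of_ne le_sup_left (fun h => hXS (by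
      rw [h]; exact le_sup_right)))
    have h2 : a ∈ X ⊔ S := by rw [h1]; trivial
    rw [Subgroup.mem_sup_of_normal_right] at h2
    obtain ⟨x, hx, s, hs, rfl⟩ := h2
    refine ⟨x * s⁻¹ * x⁻¹, (inferInstance : S.Normal).conj_mem _ (S.inv_mem hs) x, ?_⟩
    have h3 : x * s⁻¹ * x⁻¹ * (x * s) = x := by group
    rw [h3]
    exact hx
  obtain ⟨i₀⟩ := (inferInstance : Nonempty ι)
  constructor
  · intro htop
    obtain ⟨s, hs, hsX⟩ := Set.not_subset.1 hXS
    obtain ⟨m, hm, hms⟩ := E.full (fun _ => s) (fun _ => hs)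
    have h1 : m ∈ E.H X := by rw [htop]; trivial
    exact hsX (by rw [← hms i₀]; exact h1 i₀)
  · intro K hK
    have hHK : E.H X ≤ K := hK.le
    -- elements of `H` with prescribed component
    have hcomp : ∀ i x, x ∈ X → ∃ h ∈ E.H X, E.κ h i = i ∧ E.α h i = x := by
      intro i x hx
      obtain ⟨g, hg, hgx⟩ := E.onto i x
      obtain ⟨m, hm, -, hmg, hmi⟩ := E.move hSX g (fun j => j = i) (by
        rintro j rfl
        rw [hgx]; exact hx)
      refine ⟨m * g, hmg, ?_, ?_⟩
      · rw [map_mul, hm, one_mul, hg]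
      · rw [hmi i rfl, hgx]
    have htr : ∀ i j, ∃ h ∈ E.H X, E.κ h i = j := by
      intro i j
      obtain ⟨g, hg⟩ := E.trans i j
      obtain ⟨m, hm, -, hmg, -⟩ := E.move hSX g (fun _ => False) (fun _ h => h.elim)
      refine ⟨m * g, hmg, ?_⟩
      rw [map_mul, hm, one_mul, hg]
    -- an element of `K` in the base group outside `H`
    obtain ⟨m₁, hm₁K, hm₁, hm₁S, i₁, hi₁⟩ : ∃ m ∈ K, E.κ m = 1 ∧ (∀ i, E.α m i ∈ S) ∧
        ∃ i, E.α m i ∉ X := by
      obtain ⟨k, hkK, hk⟩ := (Set.ssubset_iff_of_subset hHK).1 hK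
      obtain ⟨m, hm, hmS, hmk, -⟩ := E.move hSX k (fun _ => False) (fun _ h => h.elim)
      refine ⟨m, ?_, hm, hmS, ?_⟩
      · have h1 := K.mul_mem (hHK hmk) (K.inv_mem hkK)
        rwa [mul_inv_cancel_right] at h1
      · by_contra hcon
        push Not at hcon
        apply hk
        have h1 : m ∈ E.H X := hcon
        have h2 := (E.H X).mul_mem ((E.H X).inv_mem h1) hmk
        rwa [inv_mul_cancel_left] at h2
    -- the projection of `K ∩ M` to a component
    let P : ι → Subgroup A := fun i =>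
      { carrier := {t | ∃ m ∈ K, E.κ m = 1 ∧ (∀ j, E.α m j ∈ S) ∧ E.α m i = t}
        one_mem' := ⟨1, K.one_mem, map_one _, fun j => by rw [E.α_one]; exact S.one_mem,
          E.α_one i⟩
        mul_mem' := by
          rintro _ _ ⟨m, hm, h1, h2, rfl⟩ ⟨m', hm', h1', h2', rfl⟩
          refine ⟨m * m', K.mul_mem hm hm', by rw [map_mul, h1, h1', one_mul], ?_, ?_⟩
          · intro j
            rw [E.coc, h1', Perm.one_apply]
            exact S.mul_mem (h2 _) (h2' _)
          · rw [E.coc, h1', Perm.one_apply]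
        inv_mem' := by
          rintro _ ⟨m, hm, h1, h2, rfl⟩
          have h3 : ∀ j, E.α m⁻¹ j = (E.α m j)⁻¹ := by
            intro j
            have := E.α_inv m j
            rwa [h1, Perm.one_apply] at this
          refine ⟨m⁻¹, K.inv_mem hm, by rw [map_inv, h1, inv_one], ?_, h3 i⟩
          intro j
          rw [h3]
          exact S.inv_mem (h2 j) }
    have hPn : ∀ i, X ≤ Subgroup.normalizer (P i : Set A) := by
      intro i x hx
      obtain ⟨h, hh, h1, h2⟩ := hcomp i x hx
      rw [Subgroup.mem_normalizer_iff]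
      have key : ∀ h ∈ K, E.κ h i = i → ∀ t ∈ P i, E.α h i * t * (E.α h i)⁻¹ ∈ P i := by
        rintro h hh h1 t ⟨m, hm, h3, h4, rfl⟩
        refine ⟨h * m * h⁻¹, K.mul_mem (K.mul_mem hh hm) (K.inv_mem hh), ?_, ?_, ?_⟩
        · rw [map_mul, map_mul, h3, mul_one, map_inv, mul_inv_cancel]
        · intro j
          obtain ⟨j, rfl⟩ := (E.κ h).surjective j
          rw [E.coc, E.coc, E.κ_inv, E.α_inv, h3, Perm.one_apply] 
          exact (inferInstance : S.Normal).conj_mem _ (h4 _) _
        · have h5 : E.κ h i = i := h1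
          conv_lhs => rw [← h5]
          rw [E.coc, E.coc, E.κ_inv, E.α_inv, h3, Perm.one_apply]
      intro t
      constructor
      · intro ht
        have := key h (hHK hh) h1 t ht
        rwa [h2] at this
      · intro ht
        have h3 : E.κ h⁻¹ i = i := by
          conv_lhs => rw [← h1]
          rw [E.κ_inv]
        have h4 : E.α h⁻¹ i = x⁻¹ := by
          have := E.α_inv h i
          rwa [h1, h2] at this
        have := key h⁻¹ (K.inv_mem (hHK hh)) h3 _ ht
        rw [h4] at this
        have h5 : x⁻¹ * (x * t * x⁻¹) * x⁻¹⁻¹ = t := by group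
        rwa [h5] at this
    have hPS : ∀ i, P i ≤ S := by
      rintro i _ ⟨m, -, -, h, rfl⟩
      exact h i
    obtain ⟨r, hr1, hr2⟩ := (Subgroup.bot_or_exists_ne_one (X ⊓ S)).resolve_left hr
    have hsing : ∀ i, ∃ m, m ∈ K ∧ E.κ m = 1 ∧ ∀ j, E.α m j = if j = i then r else 1 := by
      intro i
      obtain ⟨m, hm, hm2⟩ := E.full (fun j => if j = i then r else 1) (by
        intro j
        split_ifs
        · exact hr1.2
        · exact S.one_mem)
      refine ⟨m, hHK ?_, hm, hm2⟩
      intro j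
      rw [hm2]
      split_ifs
      · exact hr1.1
      · exact X.one_mem
    have hSP : S ≤ P i₁ := by
      have h1 : P i₁ ≤ Subgroup.normalizer (P i₁ : Set A) := Subgroup.le_normalizer
      have h2 : Subgroup.normalizer (P i₁ : Set A) = ⊤ := by
        apply hX.2
        apply lt_of_le_of_ne (hPn i₁)
        intro h
        apply hi₁
        rw [h]
        exact h1 ⟨m₁, hm₁K, hm₁, hm₁S, rfl⟩
      apply normal_top (hPS i₁)
      · intro h
        apply hr2
        obtain ⟨m, hm, h3, h4⟩ := hsing i₁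
        have h5 : r ∈ P i₁ := by
          refine ⟨m, hm, h3, ?_, ?_⟩
          · intro j
            rw [h4]
            split_ifs
            · exact hr1.2
            · exact S.one_mem
          · rw [h4, if_pos rfl]
        rw [h, Subgroup.mem_bot] at h5
        exact h5
      · intro s _ p hp
        have h3 : s ∈ Subgroup.normalizer (P i₁ : Set A) := by rw [h2]; trivial
        exact (Subgroup.mem_normalizer_iff.1 h3 p).1 hp
    -- the elements of `S` whose single lies in `K`
    let Q : ι → Subgroup A := fun i =>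
      { carrier := {t | t ∈ S ∧ ∃ m ∈ K, E.κ m = 1 ∧ ∀ j, E.α m j = if j = i then t else 1}
        one_mem' := ⟨S.one_mem, 1, K.one_mem, map_one _, fun j => by
          rw [E.α_one]; split_ifs <;> rfl⟩
        mul_mem' := by
          rintro t t' ⟨ht, m, hm, h1, h2⟩ ⟨ht', m', hm', h1', h2'⟩
          refine ⟨S.mul_mem ht ht', m * m', K.mul_mem hm hm', by rw [map_mul, h1, h1', one_mul],
            ?_⟩
          intro j
          rw [E.coc, h1', Perm.one_apply, h2, h2']
          split_ifs
          · rfl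
          · rw [one_mul]
        inv_mem' := by
          rintro t ⟨ht, m, hm, h1, h2⟩
          refine ⟨S.inv_mem ht, m⁻¹, K.inv_mem hm, by rw [map_inv, h1, inv_one], ?_⟩
          intro j
          have := E.α_inv m j
          rw [h1, Perm.one_apply] at this
          rw [this, h2]
          split_ifs
          · rfl
          · rw [inv_one] }
    have hQconj : ∀ i j, ∀ k ∈ K, E.κ k i = j → ∀ t ∈ Q i, E.α k i * t * (E.α k i)⁻¹ ∈ Q j := by
      rintro i j k hk rfl t ⟨ht, m, hm, h1, h2⟩
      refine ⟨(inferInstance : S.Normal).conj_mem _ ht _, k * m * k⁻¹,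
        K.mul_mem (K.mul_mem hk hm) (K.inv_mem hk), ?_, ?_⟩
      · rw [map_mul, map_mul, h1, mul_one, map_inv, mul_inv_cancel]
      · intro l
        obtain ⟨l, rfl⟩ := (E.κ k).surjective l
        rw [E.coc, E.coc, E.κ_inv, E.α_inv, h1, Perm.one_apply, h2]
        by_cases hl : l = i
        · subst hl
          rw [if_pos rfl, if_pos rfl]
        · rw [if_neg hl, if_neg (fun h => hl ((E.κ k).injective h)), mul_one, mul_inv_cancel]
    have hQ₁ : S ≤ Q i₁ := by
      apply normal_top
      · rintro t ⟨ht, -⟩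
        exact ht
      · intro h
        apply hr2
        obtain ⟨m, hm, h3, h4⟩ := hsing i₁
        have h5 : r ∈ Q i₁ := ⟨hr1.2, m, hm, h3, h4⟩
        rw [h, Subgroup.mem_bot] at h5
        exact h5
      · intro s hs p hp
        obtain ⟨m, hm, h1, -, h2⟩ := hSP hs
        have := hQconj i₁ i₁ m hm (by rw [h1, Perm.one_apply]) p hp
        rwa [h2] at this
    have hQ : ∀ i, S ≤ Q i := by
      intro i t ht
      obtain ⟨h, hh, hi⟩ := htr i₁ i
      have h1 : (E.α h i₁)⁻¹ * t * E.α h i₁ ∈ S := by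
        have := (inferInstance : S.Normal).conj_mem _ ht (E.α h i₁)⁻¹
        rwa [inv_inv] at this
      have h2 := hQconj i₁ i h (hHK hh) hi _ (hQ₁ h1)
      have h3 : E.α h i₁ * ((E.α h i₁)⁻¹ * t * E.α h i₁) * (E.α h i₁)⁻¹ = t := by group
      rwa [h3] at h2
    -- every element of the base group lies in `K`
    have hbase : ∀ t : ι → S, ∃ m ∈ K, E.κ m = 1 ∧ ∀ i, E.α m i = t i := by
      let F : Subgroup (ι → S) :=
        { carrier := {t | ∃ m ∈ K, E.κ m = 1 ∧ ∀ i, E.α m i = t i}
          one_mem' := ⟨1, K.one_mem, map_one _, fun i => by rw [E.α_one]; rfl⟩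
          mul_mem' := by
            rintro t t' ⟨m, hm, h1, h2⟩ ⟨m', hm', h1', h2'⟩
            refine ⟨m * m', K.mul_mem hm hm', by rw [map_mul, h1, h1', one_mul], ?_⟩
            intro i
            rw [E.coc, h1', Perm.one_apply, h2, h2']
            rfl
          inv_mem' := by
            rintro t ⟨m, hm, h1, h2⟩
            refine ⟨m⁻¹, K.inv_mem hm, by rw [map_inv, h1, inv_one], ?_⟩
            intro i
            have := E.α_inv m i
            rw [h1, Perm.one_apply] at this
            rw [this, h2]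
            rfl }
      intro t
      have : t ∈ F := by
        apply Subgroup.pi_mem_of_mulSingle_mem
        intro i
        obtain ⟨-, m, hm, h1, h2⟩ := hQ i (t i).2
        refine ⟨m, hm, h1, ?_⟩
        intro j
        rw [h2]
        by_cases hj : j = i
        · subst hj
          rw [if_pos rfl, Pi.mulSingle_eq_same]
        · rw [if_neg hj, Pi.mulSingle_eq_of_ne hj]
          rfl
      exact this
    rw [eq_top_iff]
    intro g _
    obtain ⟨m, hm, hmS, hmg, -⟩ := E.move hSX g (fun _ => False) (fun _ h => h.elim)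
    obtain ⟨m', hm', h1, h2⟩ := hbase (fun i => ⟨E.α m i, hmS i⟩)
    have h3 : m'⁻¹ * m ∈ E.H X := by
      intro i
      have := E.α_inv m' i
      rw [h1, Perm.one_apply] at this
      rw [E.coc, hm, Perm.one_apply, this, h2]
      simp only [inv_mul_cancel]
      exact X.one_mem
    have h4 : m ∈ K := by
      have := K.mul_mem hm' (hHK h3)
      rwa [mul_inv_cancel_left] at this
    have h5 := K.mul_mem (K.inv_mem h4) (hHK hmg)
    rwa [inv_mul_cancel_left] at h5

end Em

end Pool.Agent.H61.PM
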