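import Mathlib

/-!
# Maximal subgroups of almost simple groups meet the socle

Used for MP_8e3030_al.
-/

namespace Pool.Agent.H61.PM

open scoped Pointwise

section action
variable {A S : Type} [Group A] [Group S] [MulDistribMulAction A S]

/-- a group of order coprime to `S` fixing only `1` fixes at most one Sylow subgroup -/
theorem unique_sylow [Finite S] {r p : ℕ} [Fact r.Prime] [Fact p.Prime] {E : Subgroup A}
    (hE : IsPGroup r E) (hr : ¬ r ∣ Nat.card S) (hfix : ∀ s : S, (∀ e ∈ E, e • s = s) → s = 1)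
    {P Q : Sylow p S} (hP : ∀ e ∈ E, e • P = P) (hQ : ∀ e ∈ E, e • Q = Q) : P = Q := by
  classical
  have hmem : ∀ (a : A) (R : Sylow p S) (s : S), s ∈ a • R ↔ a⁻¹ • s ∈ R := by
    intro a R s
    change s ∈ (a • (R : Subgroup S)) ↔ _
    rw [Subgroup.mem_pointwise_smul_iff_inv_smul_mem]
    rfl
  have hmem' : ∀ (t : S) (R : Sylow p S) (s : S), s ∈ t • R ↔ t⁻¹ * s * t ∈ R := by
    intro t R s
    change s ∈ (MulAut.conj t • (R : Subgroup S)) ↔ _
    rw [Subgroup.mem_pointwise_smul_iff_inv_smul_mem, ← map_inv, MulAut.smul_def,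
      MulAut.conj_apply, inv_inv]
    rfl
  have hcomp : ∀ (a : A) (t : S) (R : Sylow p S), a • (t • R) = (a • t) • (a • R) := by
    intro a t R
    apply Sylow.ext
    ext s
    change s ∈ a • (t • R) ↔ s ∈ (a • t) • (a • R)
    rw [hmem, hmem', hmem', hmem, smul_mul', smul_mul', ← smul_inv', inv_smul_smul, inv_smul_smul]
  obtain ⟨t₀, ht₀⟩ := MulAction.exists_smul_eq S P Q
  let Ω := {t : S // t • P = Q}
  have hcard : Nat.card Ω = Nat.card (MulAction.stabilizer S P) := by
    apply Nat.card_congr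
    refine
      { toFun := fun t => ⟨t₀⁻¹ * t.1, ?_⟩
        invFun := fun n => ⟨t₀ * n.1, ?_⟩
        left_inv := ?_
        right_inv := ?_ }
    · rw [MulAction.mem_stabilizer_iff, mul_smul, t.2, inv_smul_eq_iff]
      exact ht₀.symm
    · have h1 : (n : S) • P = P := n.2
      rw [mul_smul, h1, ht₀]
    · intro t
      apply Subtype.ext
      simp
    · intro n
      apply Subtype.ext
      simp
  have hdvd : ¬ r ∣ Nat.card Ω := by
    rw [hcard]
    intro h
    exact hr (h.trans (Subgroup.card_subgroup_dvd_card _))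
  let : MulAction E Ω :=
    { smul := fun e t => ⟨(e : A) • t.1, by
        have h1 := hcomp e t.1 P
        rw [t.2, hP e e.2, hQ e e.2] at h1
        exact h1.symm⟩
      one_smul := by
        intro t
        apply Subtype.ext
        change ((1 : E) : A) • t.1 = t.1
        rw [Subgroup.coe_one, one_smul]
      mul_smul := by
        intro e f t
        apply Subtype.ext
        change ((e * f : E) : A) • t.1 = (e : A) • (f : A) • t.1
        rw [Subgroup.coe_mul, mul_smul] }
  obtain ⟨t, ht⟩ := hE.nonempty_fixed_point_of_prime_not_dvd_card Ω hdvd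
  have h1 : t.1 = 1 := by
    apply hfix
    intro e he
    have := congrArg Subtype.val (ht ⟨e, he⟩)
    exact this
  have h2 := t.2
  rw [h1, one_smul] at h2
  exact h2

/-- existence of an invariant Sylow subgroup -/
theorem exists_sylow [Finite S] {r p : ℕ} [Fact r.Prime] [Fact p.Prime] {E : Subgroup A}
    (hE : IsPGroup r E) (hr : ¬ r ∣ Nat.card S) : ∃ P : Sylow p S, ∀ e ∈ E, e • P = P := by
  have h1 : ¬ r ∣ Nat.card (Sylow p S) := by
    intro h
    have P : Sylow p S := default
    exact hr (h.trans (P.card_dvd_index.trans (Subgroup.index_dvd_card _)))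
  obtain ⟨P, hP⟩ := hE.nonempty_fixed_point_of_prime_not_dvd_card (Sylow p S) h1
  exact ⟨P, fun e he => hP ⟨e, he⟩⟩

end action

/-- a nontrivial group with a term of the derived series trivial has a nontrivial elementary
abelian characteristic subgroup -/
theorem exists_elem {A : Type} [Group A] [Finite A] {X S : Subgroup A} (hX : X ≠ ⊥)
    (hXS : X ⊓ S = ⊥) {n : ℕ} (hn : derivedSeries A n ≤ S) :
    ∃ (r : ℕ) (_ : Fact r.Prime) (E : Subgroup A), E ≤ X ∧ E ≠ ⊥ ∧ IsPGroup r E ∧
      ∀ x ∈ X, ∀ e ∈ E, x * e * x⁻¹ ∈ E := by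
  classical
  let D : ℕ → Subgroup A := fun k => (derivedSeries X k).map X.subtype
  have hDX : ∀ k, D k ≤ X := by
    rintro k _ ⟨x, -, rfl⟩
    exact x.2
  have hex : ∃ k, D k = ⊥ := by
    refine ⟨n, ?_⟩
    rw [eq_bot_iff, ← hXS]
    apply le_inf (hDX n)
    exact (map_derivedSeries_le_derivedSeries X.subtype n).trans hn
  have h1 := Nat.find_spec hex
  have h2 := fun m => Nat.find_min hex (m := m)
  generalize Nat.find hex = k at h1 h2
  obtain _ | k := k
  · exfalso
    apply hX
    rw [← h1]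
    change X = (derivedSeries X 0).map X.subtype
    rw [derivedSeries_zero, ← MonoidHom.range_eq_map, Subgroup.range_subtype]
  · have h3 := h2 k (Nat.lt_succ_self k)
    -- `D k` is abelian and normalised by `X`
    have hcomm : ∀ a ∈ D k, ∀ b ∈ D k, a * b = b * a := by
      rintro _ ⟨a, ha, rfl⟩ _ ⟨b, hb, rfl⟩
      have h4 : a * b * a⁻¹ * b⁻¹ ∈ derivedSeries X (k + 1) := by
        rw [derivedSeries_succ]
        exact Subgroup.commutator_mem_commutator ha hb
      have h5 : X.subtype (a * b * a⁻¹ * b⁻¹) ∈ D (k + 1) := ⟨_, h4, rfl⟩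
      rw [h1, Subgroup.mem_bot, map_mul, map_mul, map_mul, map_inv, map_inv, mul_inv_eq_one,
        mul_inv_eq_iff_eq_mul] at h5
      exact h5
    have hnorm : ∀ x ∈ X, ∀ a ∈ D k, x * a * x⁻¹ ∈ D k := by
      rintro x hx _ ⟨a, ha, rfl⟩
      have : (derivedSeries X k).Normal := derivedSeries_normal X k
      exact ⟨⟨x, hx⟩ * a * ⟨x, hx⟩⁻¹, this.conj_mem a ha _, rfl⟩
    have hne : Nat.card (D k) ≠ 1 := by
      intro h
      exact h3 (Subgroup.card_eq_one.1 h)
    obtain ⟨r, hr, hrd⟩ := Nat.exists_prime_and_dvd hne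
    have : Fact r.Prime := ⟨hr⟩
    let E : Subgroup A :=
      { carrier := {a | a ∈ D k ∧ a ^ r = 1}
        one_mem' := ⟨(D k).one_mem, one_pow r⟩
        mul_mem' := by
          rintro a b ⟨ha, ha'⟩ ⟨hb, hb'⟩
          refine ⟨(D k).mul_mem ha hb, ?_⟩
          have : Commute a b := hcomm a ha b hb
          rw [this.mul_pow, ha', hb', one_mul]
        inv_mem' := by
          rintro a ⟨ha, ha'⟩
          exact ⟨(D k).inv_mem ha, by rw [inv_pow, ha', inv_one]⟩ }
    refine ⟨r, this, E, ?_, ?_, ?_, ?_⟩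
    · rintro a ⟨ha, -⟩
      exact hDX k ha
    · obtain ⟨a, ha⟩ := exists_prime_orderOf_dvd_card' r hrd
      intro hbot
      have h4 : (a : A) ∈ E := ⟨a.2, by
        have := pow_orderOf_eq_one a
        rw [ha] at this
        exact congrArg Subtype.val this⟩
      rw [hbot, Subgroup.mem_bot] at h4
      have h5 : a = 1 := Subtype.ext h4
      rw [h5, orderOf_one] at ha
      exact hr.one_lt.ne ha
    · rintro ⟨a, ha, ha'⟩
      exact ⟨1, Subtype.ext (by rw [pow_one]; exact ha')⟩
    · rintro x hx a ⟨ha, ha'⟩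
      refine ⟨hnorm x hx a ha, ?_⟩
      rw [conj_pow, ha', mul_one, mul_inv_cancel]

/-- in an almost simple group with soluble outer part, every maximal subgroup meets the socle -/
theorem meet {A : Type} [Group A] [Finite A] {X S : Subgroup A} [S.Normal] [IsSimpleGroup S]
    (hSn : ∃ a b : S, a * b ≠ b * a) (hC : Subgroup.centralizer (S : Set A) = ⊥) {n : ℕ}
    (hn : derivedSeries A n ≤ S) (hX : IsCoatom X) : X ⊓ S ≠ ⊥ := by
  classical
  intro hXS
  have hX0 : X ≠ ⊥ := by
    rintro rfl
    obtain ⟨a, b, hab⟩ := hSn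
    have hb : (b : A) ≠ 1 := by
      intro h
      apply hab
      have : b = 1 := Subtype.ext h
      rw [this, one_mul, mul_one]
    have h1 : Subgroup.zpowers (b : A) = ⊤ :=
      hX.2 _ (bot_lt_iff_ne_bot.2 (fun h => hb (Subgroup.zpowers_eq_bot.1 h)))
    have h2 : (a : A) ∈ Subgroup.zpowers (b : A) := by rw [h1]; trivial
    obtain ⟨m, hm⟩ := Subgroup.mem_zpowers_iff.1 h2
    apply hab
    apply Subtype.ext
    rw [Subgroup.coe_mul, Subgroup.coe_mul, ← hm]
    exact (Commute.refl (b : A)).zpow_left m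
  obtain ⟨r, hr, E, hEX, hE0, hEp, hEn⟩ := exists_elem hX0 hXS hn
  -- the normaliser of `E` is `X`
  have hNE : Subgroup.normalizer (E : Set A) = X := by
    have h1 : X ≤ Subgroup.normalizer (E : Set A) := by
      intro x hx
      rw [Subgroup.mem_normalizer_iff]
      intro e
      constructor
      · exact hEn x hx e
      · intro h
        have := hEn x⁻¹ (X.inv_mem hx) _ h
        have h5 : x⁻¹ * (x * e * x⁻¹) * x⁻¹⁻¹ = e := by group
        rwa [h5] at this
    by_contra hne
    have h2 : Subgroup.normalizer (E : Set A) = ⊤ := hX.2 _ (lt_of_le_of_ne h1 (Ne.symm hne))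
    apply hE0
    rw [eq_bot_iff, ← hC]
    intro e he
    rw [Subgroup.mem_centralizer_iff]
    intro s hs
    have h3 : s ∈ Subgroup.normalizer (E : Set A) := by rw [h2]; trivial
    have h4 : s * e * s⁻¹ ∈ E := (Subgroup.mem_normalizer_iff.1 h3 e).1 he
    have h5 : s * e * s⁻¹ * e⁻¹ ∈ X := X.mul_mem (hEX h4) (X.inv_mem (hEX he))
    have h6 : s * e * s⁻¹ * e⁻¹ ∈ S := by
      have h7 := (inferInstance : S.Normal).conj_mem _ (S.inv_mem hs) e
      have h8 := S.mul_mem hs h7
      have h9 : s * (e * s⁻¹ * e⁻¹) = s * e * s⁻¹ * e⁻¹ := by group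
      rwa [h9] at h8
    have h7 : s * e * s⁻¹ * e⁻¹ ∈ X ⊓ S := ⟨h5, h6⟩
    rw [hXS, Subgroup.mem_bot, mul_inv_eq_one, mul_inv_eq_iff_eq_mul] at h7
    exact h7
  let : MulDistribMulAction A S := MulDistribMulAction.compHom S (MulAut.conjNormal : A →* MulAut S)
  have hact : ∀ (a : A) (s : S), ((a • s : S) : A) = a * s * a⁻¹ := by
    intro a s
    exact MulAut.conjNormal_apply a s
  have hfix : ∀ s : S, (∀ e ∈ E, e • s = s) → s = 1 := by
    intro s hs
    apply Subtype.ext
    have h1 : (s : A) ∈ X := by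
      rw [← hNE, Subgroup.mem_normalizer_iff]
      intro e
      have key : ∀ e ∈ E, (s : A) * e * (s : A)⁻¹ = e := by
        intro e he
        have h2 := congrArg Subtype.val (hs e he)
        rw [hact] at h2
        have h3 : (s : A) * e = e * s := (mul_inv_eq_iff_eq_mul.1 h2).symm
        rw [h3, mul_inv_cancel_right]
      constructor
      · intro he
        rw [key e he]
        exact he
      · intro he
        have h2 := key _ he
        have h3 : (s : A) * e * (s : A)⁻¹ = e := by
          have h4 : (s : A)⁻¹ * ((s : A) * ((s : A) * e * (s : A)⁻¹) * (s : A)⁻¹) * (s : A) =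
              (s : A)⁻¹ * ((s : A) * e * (s : A)⁻¹) * (s : A) := by rw [h2]
          have h5 : (s : A)⁻¹ * ((s : A) * ((s : A) * e * (s : A)⁻¹) * (s : A)⁻¹) * (s : A) =
              (s : A) * e * (s : A)⁻¹ := by group
          have h6 : (s : A)⁻¹ * ((s : A) * e * (s : A)⁻¹) * (s : A) = e := by group
          rw [h5, h6] at h4
          exact h4
        rwa [h3] at he
    have h2 : (s : A) ∈ X ⊓ S := ⟨h1, s.2⟩
    rw [hXS] at h2
    exact Subgroup.mem_bot.1 h2
  -- `r` does not divide the order of `S`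
  have hrS : ¬ r ∣ Nat.card S := by
    have h1 := hEp.card_modEq_card_fixedPoints S
    have h2 : Nat.card (MulAction.fixedPoints E S) = 1 := by
      rw [Nat.card_eq_one_iff_unique]
      constructor
      · constructor
        rintro ⟨s, hs⟩ ⟨t, ht⟩
        apply Subtype.ext
        change s = t
        rw [hfix s (fun e he => hs ⟨e, he⟩), hfix t (fun e he => ht ⟨e, he⟩)]
      · exact ⟨⟨1, fun e => smul_one _⟩⟩
    rw [h2] at h1
    intro hd
    have h3 : Nat.card S ≡ 0 [MOD r] := Nat.modEq_zero_iff_dvd.2 hd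
    have h4 : 1 ≡ 0 [MOD r] := h1.symm.trans h3
    exact hr.out.one_lt.ne' (Nat.dvd_one.1 (Nat.modEq_zero_iff_dvd.1 h4))
  have hScard : Nat.card S ≠ 1 := by
    intro h
    obtain ⟨a, b, hab⟩ := hSn
    rw [Nat.card_eq_one_iff_unique] at h
    have := h.1
    exact hab (Subsingleton.elim _ _)
  obtain ⟨p, hp, hpd⟩ := Nat.exists_prime_and_dvd hScard
  have : Fact p.Prime := ⟨hp⟩
  obtain ⟨P, hP⟩ := exists_sylow (S := S) (p := p) hEp hrS
  have hmem : ∀ (a : A) (R : Sylow p S) (s : S), s ∈ a • R ↔ a⁻¹ • s ∈ R := by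
    intro a R s
    change s ∈ (a • (R : Subgroup S)) ↔ _
    rw [Subgroup.mem_pointwise_smul_iff_inv_smul_mem]
    rfl
  have hXP : X ≤ MulAction.stabilizer A P := by
    intro x hx
    rw [MulAction.mem_stabilizer_iff]
    symm
    apply unique_sylow hEp hrS hfix hP
    intro e he
    have h1 : x⁻¹ * e * x ∈ E := by
      have := hEn x⁻¹ (X.inv_mem hx) e he
      rwa [inv_inv] at this
    have h2 : e * x = x * (x⁻¹ * e * x) := by group
    rw [← mul_smul, h2, mul_smul, hP _ h1]
  have hPst : ∀ s : S, s ∈ P → (s : A) ∈ MulAction.stabilizer A P := by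
    intro s hs
    rw [MulAction.mem_stabilizer_iff]
    apply Sylow.ext
    ext t
    change t ∈ (s : A) • P ↔ t ∈ P
    rw [hmem]
    have h1 : (s : A)⁻¹ • t = s⁻¹ * t * s := by
      apply Subtype.ext
      rw [hact]
      simp
    rw [h1]
    constructor
    · intro h
      have h2 := P.mul_mem (P.mul_mem hs h) (P.inv_mem hs)
      have h3 : s * (s⁻¹ * t * s) * s⁻¹ = t := by group
      rwa [h3] at h2
    · intro h
      exact P.mul_mem (P.mul_mem (P.inv_mem hs) h) hs
  have hP1 : (P : Subgroup S) ≠ ⊥ := by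
    intro h
    have h1 := P.card_eq_multiplicity
    rw [h, Subgroup.card_bot] at h1
    have h2 : 0 < (Nat.card S).factorization p :=
      hp.factorization_pos_of_dvd Nat.card_pos.ne' hpd
    have h3 := Nat.one_lt_pow h2.ne' hp.one_lt
    omega
  by_cases hst : MulAction.stabilizer A P = ⊤
  · -- `P` is normal in `S`
    have hPn : (P : Subgroup S).Normal := by
      refine ⟨?_⟩
      intro s hs t
      have h1 : (t : A)⁻¹ ∈ MulAction.stabilizer A P := by rw [hst]; trivial
      rw [MulAction.mem_stabilizer_iff] at h1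
      have h2 : s ∈ (t : A)⁻¹ • P := by rw [h1]; exact hs
      rw [hmem, inv_inv] at h2
      have h3 : (t : A) • s = t * s * t⁻¹ := by
        apply Subtype.ext
        rw [hact]
        simp
      rw [h3] at h2
      exact h2
    have hPt : (P : Subgroup S) = ⊤ := hPn.eq_bot_or_eq_top.resolve_left hP1
    have hSp : IsPGroup p S := by
      have h1 := P.isPGroup'
      intro s
      obtain ⟨k, hk⟩ := h1 ⟨s, by rw [hPt]; trivial⟩
      exact ⟨k, congrArg Subtype.val hk⟩
    have hn : Nontrivial (Subgroup.center S) := hSp.center_nontrivial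
    have hc : Subgroup.center S = ⊤ := by
      apply (inferInstance : (Subgroup.center S).Normal).eq_bot_or_eq_top.resolve_left
      intro h
      rw [h] at hn
      exact not_nontrivial _ hn
    obtain ⟨a, b, hab⟩ := hSn
    have : b ∈ Subgroup.center S := by rw [hc]; trivial
    exact hab (Subgroup.mem_center_iff.1 this a)
  · have hstX : MulAction.stabilizer A P = X := by
      by_contra hne
      exact hst (hX.2 _ (lt_of_le_of_ne hXP (Ne.symm hne)))
    apply hP1
    rw [eq_bot_iff]
    intro s hs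
    have h1 : (s : A) ∈ X ⊓ S := ⟨by rw [← hstX]; exact hPst s hs, s.2⟩
    rw [hXS, Subgroup.mem_bot] at h1
    rw [Subgroup.mem_bot]
    exact Subtype.ext h1

end Pool.Agent.H61.PM
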