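import Pool.Agent.H61.PM.Defs

/-!
# The soluble case

Used for MP_8e3030_al.  The `P`-characters coming from maximal subgroups containing a term of the
derived series are monomial (Qian and Yang).
-/

namespace Pool.Agent.H61.PM

section
variable {G V : Type} [Group G] [AddCommGroup V] [Module ℂ V] {ρ : Representation ℂ G V}

theorem span_orbit (hρ : Irred ρ) {v : V} (hv : v ≠ 0) :
    Submodule.span ℂ (Set.range fun g => ρ g v) = ⊤ := by
  rcases hρ.2 (Submodule.span ℂ (Set.range fun g => ρ g v)) (by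
    intro g w hw
    have : (Submodule.span ℂ (Set.range fun g => ρ g v)) ≤
        (Submodule.span ℂ (Set.range fun g => ρ g v)).comap (ρ g) := by
      rw [Submodule.span_le]
      rintro _ ⟨k, rfl⟩
      apply Submodule.subset_span
      exact ⟨g * k, by simp only [rho_mul]⟩
    exact this hw) with h1 | h1
  · exfalso
    apply hv
    rw [← Submodule.mem_bot ℂ, ← h1]
    exact Submodule.subset_span ⟨1, by simp only [rho_one]⟩
  · exact h1

/-- commuting operators have a common eigenvector -/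
theorem exists_common [FiniteDimensional ℂ V] [Nontrivial V] {L : Subgroup G}
    (hab : ∀ a ∈ L, ∀ b ∈ L, ∀ v, ρ (a * b) v = ρ (b * a) v) :
    ∃ v : V, v ≠ 0 ∧ ∀ a ∈ L, ∃ c : ℂ, ρ a v = c • v := by
  let T : Set (Submodule ℂ V) := {F | F ≠ ⊥ ∧ ∀ a ∈ L, ∀ w ∈ F, ρ a w ∈ F}
  have hT : T.Nonempty := ⟨⊤, top_ne_bot, fun _ _ _ _ => trivial⟩
  obtain ⟨F, ⟨hF1, hF2⟩, hF3⟩ := wellFounded_lt.has_min T hT
  obtain ⟨v, hvF, hv⟩ := (Submodule.ne_bot_iff F).1 hF1
  refine ⟨v, hv, ?_⟩
  intro a ha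
  have hn : Nontrivial F := ⟨⟨⟨v, hvF⟩, 0, fun h => hv (congrArg Subtype.val h)⟩⟩
  let f : Module.End ℂ F := (ρ a).restrict (hF2 a ha)
  obtain ⟨c, hc⟩ := Module.End.exists_eigenvalue f
  obtain ⟨w, hw⟩ := hc.exists_hasEigenvector
  have hw1 : ρ a (w : V) = c • (w : V) := by
    have := congrArg Subtype.val hw.apply_eq_smul
    exact this
  have hw0 : (w : V) ≠ 0 := fun h => hw.2 (Subtype.ext h)
  refine ⟨c, ?_⟩
  let F' : Submodule ℂ V := F ⊓ LinearMap.ker (ρ a - c • LinearMap.id)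
  have hmem : ∀ u, u ∈ F' ↔ u ∈ F ∧ ρ a u = c • u := by
    intro u
    rw [Submodule.mem_inf, LinearMap.mem_ker, LinearMap.sub_apply, LinearMap.smul_apply,
      LinearMap.id_apply, sub_eq_zero]
  have hF' : F' ∈ T := by
    refine ⟨?_, ?_⟩
    · rw [Submodule.ne_bot_iff]
      exact ⟨w, (hmem _).2 ⟨w.2, hw1⟩, hw0⟩
    · intro b hb u hu
      obtain ⟨h1, h2⟩ := (hmem _).1 hu
      refine (hmem _).2 ⟨hF2 b hb u h1, ?_⟩
      rw [← rho_mul, hab a ha b hb, rho_mul, h2, map_smul]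
  have h3 := hF3 F' hF'
  have h4 : F ≤ F' := by
    by_contra hcon
    exact h3 (lt_of_le_of_ne inf_le_left (fun h => hcon (by rw [h])))
  exact ((hmem v).1 (h4 hvF)).2

/-- a normal subgroup with abelian image supplementing a maximal subgroup -/
theorem abelian_case [Finite G] [FiniteDimensional ℂ V] (hρ : Irred ρ) {X L : Subgroup G}
    [L.Normal] (hX : IsCoatom X) (hLX : ¬ L ≤ X)
    (hab : ∀ a ∈ L, ∀ b ∈ L, ∀ v, ρ (a * b) v = ρ (b * a) v) (hocc : Occurs X ρ) :
    Monomial ρ := by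
  classical
  have : Nontrivial V := hρ.1
  obtain ⟨l, hl, hlX⟩ := fun_of_occurs hρ.1 hocc
  obtain ⟨v, hv, hvL⟩ := exists_common hab
  have hXL : ∀ g : G, ∃ x ∈ X, ∃ a ∈ L, x * a = g := by
    intro g
    have h1 : X ⊔ L = ⊤ := hX.2 _ (lt_of_le_of_ne le_sup_left (fun h => hLX (by
      rw [h]; exact le_sup_right)))
    have h2 : g ∈ X ⊔ L := by rw [h1]; trivial
    exact Subgroup.mem_sup_of_normal_right.1 h2
  have hlne : ∀ w : V, w ≠ 0 → (∀ a ∈ L, ∃ c : ℂ, ρ a w = c • w) → l w ≠ 0 := by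
    intro w hw hwL h0
    apply hw
    apply eq_zero_of_fun hρ hl
    intro g
    obtain ⟨x, hx, a, ha, rfl⟩ := hXL g
    obtain ⟨c, hc⟩ := hwL a ha
    rw [rho_mul, hlX x hx, hc, map_smul, h0, smul_zero]
  choose μ hμ using fun a : L => hvL a a.2
  -- the translates are eigenvectors
  have hg : ∀ g : G, ∀ a : L, ρ a (ρ g v) = μ (MulAut.conjNormal g⁻¹ a) • ρ g v := by
    intro g a
    rw [← map_smul, ← hμ, MulAut.conjNormal_apply, ← rho_mul, ← rho_mul]
    congr 2
    group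
  have hgL : ∀ g : G, ∀ a ∈ L, ∃ c : ℂ, ρ a (ρ g v) = c • ρ g v :=
    fun g a ha => ⟨_, hg g ⟨a, ha⟩⟩
  have hμ1 : μ 1 = 1 := by
    have h1 := hμ 1
    rw [Subgroup.coe_one, rho_one] at h1
    by_contra hne
    apply hv
    have h2 : (μ 1 - 1) • v = 0 := by rw [sub_smul, one_smul, ← h1, sub_self]
    exact (smul_eq_zero.1 h2).resolve_left (sub_ne_zero.2 hne)
  have hμm : ∀ a b, μ (a * b) = μ a * μ b := by
    intro a b
    have h1 := hμ (a * b)
    rw [Subgroup.coe_mul, rho_mul, hμ b, map_smul, hμ a, smul_smul] at h1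
    by_contra hne
    apply hv
    have h2 : (μ (a * b) - μ b * μ a) • v = 0 := by rw [sub_smul, ← h1, sub_self]
    exact (smul_eq_zero.1 h2).resolve_left (sub_ne_zero.2 (by rw [mul_comm (μ b)]; exact hne))
  let χ : G → (L →* ℂ) := fun g =>
    { toFun := fun a => μ (MulAut.conjNormal g⁻¹ a)
      map_one' := by rw [map_one, hμ1]
      map_mul' := by
        intro a b
        rw [map_mul, hμm] }
  have hχ : ∀ g : G, ∀ a : L, ρ a (ρ g v) = χ g a • ρ g v := hg
  -- equal characters give proportional vectors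
  have heq : ∀ g g', χ g = χ g' → ∃ c : ℂ, ρ g' v = c • ρ g v := by
    intro g g' h
    have h1 := hlne _ (rho_ne (ρ := ρ) (g := g) hv) (hgL g)
    refine ⟨l (ρ g' v) * (l (ρ g v))⁻¹, ?_⟩
    by_contra hne
    have h2 : ρ g' v - (l (ρ g' v) * (l (ρ g v))⁻¹) • ρ g v ≠ 0 := sub_ne_zero.2 hne
    apply hlne _ h2
    · intro a ha
      refine ⟨χ g' ⟨a, ha⟩, ?_⟩
      have h3 := hχ g ⟨a, ha⟩
      have h4 := hχ g' ⟨a, ha⟩
      rw [map_sub, map_smul, h3, h4, h, smul_sub, smul_comm]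
    · rw [map_sub, map_smul, smul_eq_mul, mul_assoc, inv_mul_cancel₀ h1, mul_one, sub_self]
  let U : Subgroup G :=
    { carrier := {g | ∃ c : ℂ, ρ g v = c • v}
      one_mem' := ⟨1, by rw [rho_one, one_smul]⟩
      mul_mem' := by
        rintro g h ⟨x, hx⟩ ⟨y, hy⟩
        exact ⟨y * x, by rw [rho_mul, hy, map_smul, hx, smul_smul]⟩
      inv_mem' := by
        rintro g ⟨x, hx⟩
        have hx0 : x ≠ 0 := by
          rintro rfl
          apply rho_ne (ρ := ρ) (g := g) hv
          rw [hx, zero_smul]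
        refine ⟨x⁻¹, ?_⟩
        have h1 := congrArg (ρ g⁻¹) hx
        rw [rho_inv, map_smul] at h1
        conv_rhs => rw [h1]
        rw [smul_smul, inv_mul_cancel₀ hx0, one_smul] }
  have : Fintype (G ⧸ U) := Fintype.ofFinite _
  let f : G ⧸ U → V := fun j => ρ j.out v
  have hout : ∀ g : G, ∃ c : ℂ, ρ g v = c • f (g : G ⧸ U) := by
    intro g
    have h1 : ((Quotient.out (g : G ⧸ U))⁻¹ * g) ∈ U := by
      rw [← QuotientGroup.eq]
      exact QuotientGroup.out_eq' _
    obtain ⟨c, hc⟩ := h1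
    refine ⟨c, ?_⟩
    change ρ g v = c • ρ (Quotient.out (g : G ⧸ U)) v
    rw [← map_smul, ← hc, ← rho_mul]
    congr 2
    group
  have hsp : ⊤ ≤ Submodule.span ℂ (Set.range f) := by
    rw [← span_orbit hρ hv, Submodule.span_le]
    rintro _ ⟨g, rfl⟩
    obtain ⟨c, hc⟩ := hout g
    change ρ g v ∈ _
    rw [hc]
    exact Submodule.smul_mem _ _ (Submodule.subset_span ⟨_, rfl⟩)
  have hinj : Function.Injective (fun j : G ⧸ U => χ j.out) := by
    intro j k hjk
    obtain ⟨c, hc⟩ := heq j.out k.out hjk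
    rw [← QuotientGroup.out_eq' j, ← QuotientGroup.out_eq' k]
    apply QuotientGroup.eq.2
    refine ⟨c, ?_⟩
    rw [rho_mul, hc, map_smul, rho_inv]
  have hli : LinearIndependent ℂ f := by
    rw [Fintype.linearIndependent_iff]
    intro c hc j
    have h1 : LinearIndependent ℂ (fun j : G ⧸ U => (⇑(χ j.out) : L → ℂ)) :=
      (linearIndependent_monoidHom L ℂ).comp _ hinj
    rw [Fintype.linearIndependent_iff] at h1
    have h2 := h1 (fun j => c j * l (f j)) (by
      funext a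
      have h3 := congrArg (fun w => l (ρ a w)) hc
      simp only [map_sum, map_smul, map_zero] at h3
      rw [Finset.sum_apply, Pi.zero_apply, ← h3]
      apply Finset.sum_congr rfl
      intro k _
      have h4 : ρ a (f k) = χ k.out a • f k := hχ k.out a
      rw [h4, map_smul, Pi.smul_apply, smul_eq_mul, smul_eq_mul, smul_eq_mul]
      ring) j
    have h3 : l (f j) ≠ 0 := hlne _ (rho_ne hv) (hgL _)
    exact (mul_eq_zero.1 h2).resolve_right h3
  apply monomial_of_basis hρ (Module.Basis.mk hli hsp)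
  intro g j
  obtain ⟨c, hc⟩ := hout (g * j.out)
  refine ⟨((g * j.out : G) : G ⧸ U), c, ?_⟩
  rw [Module.Basis.mk_apply, Module.Basis.mk_apply, ← hc, rho_mul]

/-- the core acts trivially -/
theorem core_trivial (hρ : Irred ρ) {X : Subgroup G} {l : V →ₗ[ℂ] ℂ} (hl : l ≠ 0)
    (hlX : ∀ x ∈ X, ∀ v, l (ρ x v) = l v) {k : G} (hk : ∀ g, g * k * g⁻¹ ∈ X) (v : V) :
    ρ k v = v := by
  rw [← sub_eq_zero]
  apply eq_zero_of_fun hρ hl
  intro g
  have h1 := hlX _ (hk g) (ρ g v)
  rw [← rho_mul] at h1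
  have h2 : g * k * g⁻¹ * g = g * k := by group
  rw [h2, rho_mul] at h1
  rw [map_sub, map_sub, h1, sub_self]

theorem solvable_case [Finite G] [FiniteDimensional ℂ V] (hρ : Irred ρ) {X : Subgroup G}
    (hX : IsCoatom X) {n : ℕ} (hn : derivedSeries G n ≤ X) (hocc : Occurs X ρ) :
    Monomial ρ := by
  classical
  obtain ⟨l, hl, hlX⟩ := fun_of_occurs hρ.1 hocc
  have hex : ∃ n, derivedSeries G n ≤ X := ⟨n, hn⟩
  have h1 := Nat.find_spec hex
  have h2 := fun m => Nat.find_min hex (m := m)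
  generalize Nat.find hex = k at h1 h2
  obtain _ | k := k
  · exfalso
    apply hX.1
    rw [eq_top_iff]
    simpa using h1
  · have h3 := h2 k (Nat.lt_succ_self k)
    have : (derivedSeries G k).Normal := derivedSeries_normal G k
    have h5 : (derivedSeries G (k + 1)).Normal := derivedSeries_normal G (k + 1)
    apply abelian_case hρ hX h3 _ hocc
    intro a ha b hb v
    have h4 : a * b * a⁻¹ * b⁻¹ ∈ derivedSeries G (k + 1) := by
      rw [derivedSeries_succ]
      exact Subgroup.commutator_mem_commutator ha hb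
    have h6 := core_trivial hρ hl hlX (k := a * b * a⁻¹ * b⁻¹)
      (fun g => h1 (h5.conj_mem _ h4 g)) (ρ (b * a) v)
    rw [← rho_mul] at h6
    have h7 : a * b * a⁻¹ * b⁻¹ * (b * a) = a * b := by group
    rwa [h7] at h6

/-- a normal subgroup acting trivially with soluble quotient -/
theorem quotient_case [Finite G] [FiniteDimensional ℂ V] (hρ : Irred ρ) {X S : Subgroup G}
    (hX : IsCoatom X) {n : ℕ} (hn : derivedSeries G n ≤ S) (hS : ∀ s ∈ S, ∀ v, ρ s v = v)
    [S.Normal] (hocc : Occurs X ρ) : Monomial ρ := by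
  by_cases hSX : S ≤ X
  · exact solvable_case hρ hX (hn.trans hSX) hocc
  · obtain ⟨l, hl, hlX⟩ := fun_of_occurs hρ.1 hocc
    apply abelian_case hρ hX hSX _ hocc
    intro a ha b hb v
    rw [hS _ (S.mul_mem ha hb), hS _ (S.mul_mem hb ha)]

end

end Pool.Agent.H61.PM
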