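import Pool.Agent.H61.PM.Rep

/-!
# If the induced representation is monomial, then so is the original one

Used for MP_8e3030_al.
-/

namespace Pool.Agent.H61.PM

open Equiv

namespace Em

variable {G A ι : Type} [Group G] [Group A] {S : Subgroup A} (E : Em G A ι S)
variable {U : Type} [AddCommGroup U] [Module ℂ U] (σ : Representation ℂ A U)

/-- the part of the base group supported at one index -/
def Mi (i : ι) : Subgroup G where
  carrier := {m | E.κ m = 1 ∧ (∀ l, l ≠ i → E.α m l = 1) ∧ E.α m i ∈ S}
  one_mem' := ⟨map_one _, fun l _ => E.α_one l, by rw [E.α_one]; exact S.one_mem⟩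
  mul_mem' := by
    rintro m m' ⟨h1, h2, h3⟩ ⟨h1', h2', h3'⟩
    refine ⟨by rw [map_mul, h1, h1', one_mul], ?_, ?_⟩
    · intro l hl
      rw [E.coc, h1', Perm.one_apply, h2 l hl, h2' l hl, one_mul]
    · rw [E.coc, h1', Perm.one_apply]
      exact S.mul_mem h3 h3'
  inv_mem' := by
    rintro m ⟨h1, h2, h3⟩
    have h4 : ∀ j, E.α m⁻¹ j = (E.α m j)⁻¹ := by
      intro j
      have := E.α_inv m j
      rwa [h1, Perm.one_apply] at this
    refine ⟨by rw [map_inv, h1, inv_one], ?_, ?_⟩
    · intro l hl
      rw [h4, h2 l hl, inv_one]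
    · rw [h4]
      exact S.inv_mem h3

theorem exists_Mi (i : ι) {t : A} (ht : t ∈ S) : ∃ m ∈ E.Mi i, E.α m i = t := by
  classical
  obtain ⟨m, hm, hms⟩ := E.full (fun j => if j = i then t else 1) (by
    intro j
    split_ifs
    · exact ht
    · exact S.one_mem)
  refine ⟨m, ⟨hm, ?_, ?_⟩, ?_⟩
  · intro l hl
    rw [hms, if_neg hl]
  · rw [hms, if_pos rfl]
    exact ht
  · rw [hms, if_pos rfl]

variable [IsSimpleGroup S]

/-- a non-abelian simple group has no proper subgroup of index at most `2` -/
theorem no_index_two {S : Type*} [Group S] [IsSimpleGroup S] [Finite S]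
    (hS : ∃ a b : S, a * b ≠ b * a) (D : Subgroup S) (h : D.index ≤ 2) : D = ⊤ := by
  have h0 : D.index ≠ 0 := Subgroup.index_ne_zero_of_finite
  rcases (show D.index = 1 ∨ D.index = 2 by omega) with h1 | h1
  · exact Subgroup.index_eq_one.1 h1
  · have hn : D.Normal := Subgroup.normal_of_index_eq_two h1
    rcases hn.eq_bot_or_eq_top with h2 | h2
    · exfalso
      rw [h2, Subgroup.index_bot] at h1
      have : Fact (Nat.Prime 2) := ⟨Nat.prime_two⟩
      have hc : IsCyclic S := isCyclic_of_prime_card h1
      obtain ⟨g, hg⟩ := hc.exists_generator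
      obtain ⟨a, b, hab⟩ := hS
      obtain ⟨m, rfl⟩ := Subgroup.mem_zpowers_iff.1 (hg a)
      obtain ⟨n, rfl⟩ := Subgroup.mem_zpowers_iff.1 (hg b)
      exact hab (by rw [← zpow_add, ← zpow_add, add_comm])
    · exact h2

/-- orbits of `Mi i` on the lines which it moves have at least `3` elements -/
theorem three_le_orbit [Finite A] [S.Normal] (hSn : ∃ a b : S, a * b ≠ b * a)
    (hσ : Irred σ) (hS : ∃ s ∈ S, ∃ u, σ s u ≠ u) {J : Type} [Finite J] [MulAction G J]
    {b : J → (ι → U)} (hb : ∀ g j, ∃ c : ℂ, E.rep σ g (b j) = c • b (g • j)) {i : ι} {j : J}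
    (hij : b j i ≠ 0) : 3 ≤ Nat.card (MulAction.orbit (E.Mi i) j) := by
  classical
  by_contra hlt
  let D : Subgroup S :=
    { carrier := {t | ∃ m ∈ E.Mi i, E.α m i = t ∧ m • j = j}
      one_mem' := ⟨1, (E.Mi i).one_mem, by rw [E.α_one]; rfl, one_smul _ _⟩
      mul_mem' := by
        rintro t t' ⟨m, hm, h1, h2⟩ ⟨m', hm', h1', h2'⟩
        refine ⟨m * m', (E.Mi i).mul_mem hm hm', ?_, ?_⟩
        · rw [E.coc, hm'.1, Perm.one_apply, h1, h1']
          rfl
        · rw [mul_smul, h2', h2]
      inv_mem' := by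
        rintro t ⟨m, hm, h1, h2⟩
        refine ⟨m⁻¹, (E.Mi i).inv_mem hm, ?_, ?_⟩
        · have := E.α_inv m i
          rw [hm.1, Perm.one_apply] at this
          rw [this, h1]
          rfl
        · rw [inv_smul_eq_iff, h2] }
  choose m hm hmα using fun t : S => E.exists_Mi i t.2
  have hidx : D.index ≤ Nat.card (MulAction.orbit (E.Mi i) j) := by
    rw [Subgroup.index]
    apply Nat.card_le_card_of_injective (fun x : S ⧸ D =>
      (⟨m x.out • j, ⟨⟨m x.out, hm _⟩, rfl⟩⟩ : MulAction.orbit (E.Mi i) j))
    intro x y hxy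
    have hxy' : m x.out • j = m y.out • j := congrArg Subtype.val hxy
    rw [← QuotientGroup.out_eq' x, ← QuotientGroup.out_eq' y]
    apply QuotientGroup.eq.2
    refine ⟨(m x.out)⁻¹ * m y.out, (E.Mi i).mul_mem ((E.Mi i).inv_mem (hm _)) (hm _), ?_, ?_⟩
    · rw [E.coc, (hm y.out).1, Perm.one_apply, hmα]
      have := E.α_inv (m x.out) i
      rw [(hm x.out).1, Perm.one_apply, hmα] at this
      rw [this]
      rfl
    · rw [mul_smul, ← hxy', inv_smul_smul]
  have hD : D = ⊤ := no_index_two hSn D (by omega)
  apply hij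
  apply fix_zero hσ hS
  apply fix_of_scalar hSn
  intro s hs
  have h1 : (⟨s, hs⟩ : S) ∈ D := by rw [hD]; trivial
  obtain ⟨m, hm, h2, h3⟩ := h1
  obtain ⟨c, hc⟩ := hb m j
  refine ⟨c, ?_⟩
  have h4 := congrFun hc i
  rw [E.rep_apply' σ hm.1, h3, h2] at h4
  exact h4

/-- the number of lines with a component at `i` -/
theorem card_lines [Finite A] [Finite ι] [S.Normal] [FiniteDimensional ℂ U]
    (hSn : ∃ a b : S, a * b ≠ b * a)
    (hσ : Irred σ) (hS : ∃ s ∈ S, ∃ u, σ s u ≠ u) {J : Type} [Fintype J] [MulAction G J]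
    (b : Module.Basis J ℂ (ι → U)) (hb : ∀ g j, ∃ c : ℂ, E.rep σ g (b j) = c • b (g • j))
    (i : ι) :
    open Classical in
    2 * (Finset.univ.filter (fun j => b j i ≠ 0)).card ≤ 3 * Module.finrank ℂ U := by
  classical
  have : Fintype ι := Fintype.ofFinite ι
  let R := MulAction.orbitRel.Quotient (E.Mi i) J
  have : Fintype R := Fintype.ofFinite R
  -- dimension of the space of vectors vanishing at `i`
  have hdim : Module.finrank ℂ (ι → U) ≤ Module.finrank ℂ U + Fintype.card R := by
    let p : (ι → U) →ₗ[ℂ] U := LinearMap.proj i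
    let Ψ : LinearMap.ker p →ₗ[ℂ] (R → ℂ) :=
      { toFun := fun v o => b.repr v (Quotient.out o)
        map_add' := by
          intro v w
          funext o
          simp only [Submodule.coe_add, map_add, Finsupp.coe_add, Pi.add_apply]
        map_smul' := by
          intro c v
          funext o
          simp only [Submodule.coe_smul, map_smul, Finsupp.coe_smul, Pi.smul_apply,
            RingHom.id_apply] }
    have hΨ : Function.Injective Ψ := by
      rw [← LinearMap.ker_eq_bot, Submodule.eq_bot_iff]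
      intro v hv
      apply Subtype.ext
      apply b.repr.injective
      rw [Submodule.coe_zero, map_zero]
      ext j
      rw [Finsupp.zero_apply]
      -- `j` is in the orbit of the representative
      have h1 : j ∈ MulAction.orbit (E.Mi i) (Quotient.out (Quotient.mk _ j : R)) := by
        have h2 : (Quotient.mk _ j : R) = Quotient.mk _ (Quotient.out (Quotient.mk _ j : R)) :=
          (Quotient.out_eq _).symm
        exact Quotient.exact h2
      obtain ⟨⟨m, hm⟩, hmj⟩ := h1
      have hmj' : m • (Quotient.out (Quotient.mk _ j : R)) = j := hmj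
      have h3 : b.repr v (Quotient.out (Quotient.mk _ j : R)) = 0 := by
        have := congrFun (show Ψ v = 0 from hv) (Quotient.mk _ j : R)
        exact this
      -- `v` is fixed by `m`
      have hfix : E.rep σ m v = v := by
        funext l
        rw [E.rep_apply' σ hm.1]
        by_cases hl : l = i
        · subst hl
          have : (v : ι → U) l = 0 := v.2
          rw [this, map_zero]
        · rw [hm.2.1 l hl, rho_one]
      choose c hc using hb m
      have h4 : (v : ι → U) = ∑ k, (b.repr v k * c k) • b (m • k) := by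
        conv_lhs => rw [← hfix, ← b.sum_repr (v : ι → U)]
        rw [map_sum]
        apply Finset.sum_congr rfl
        intro k _
        rw [map_smul, hc, smul_smul]
      have h5 : b.repr v j = ∑ k, (b.repr v k * c k) * b.repr (b (m • k)) j := by
        conv_lhs => rw [h4]
        rw [map_sum, Finsupp.finsetSum_apply]
        apply Finset.sum_congr rfl
        intro k _
        rw [map_smul, Finsupp.smul_apply, smul_eq_mul]
      rw [h5]
      apply Finset.sum_eq_zero
      intro k _
      rw [b.repr_self]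
      by_cases hk : m • k = j
      · have : k = Quotient.out (Quotient.mk _ j : R) := by
          exact MulAction.injective m (hk.trans hmj'.symm)
        rw [this, h3]
        ring
      · rw [Finsupp.single_eq_of_ne (Ne.symm hk), mul_zero]
    have h1 : Module.finrank ℂ (LinearMap.ker p) ≤ Fintype.card R := by
      have := LinearMap.finrank_le_finrank_of_injective hΨ
      rwa [Module.finrank_fintype_fun_eq_card] at this
    have h2 := LinearMap.finrank_range_add_finrank_ker p
    have h3 : Module.finrank ℂ (LinearMap.range p) ≤ Module.finrank ℂ U :=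
      Submodule.finrank_le _
    omega
  have hJ : Module.finrank ℂ (ι → U) = Fintype.card J := Module.finrank_eq_card_basis b
  -- the number of orbits
  have horb : 3 * Fintype.card R + 2 * (Finset.univ.filter (fun j => b j i ≠ 0)).card ≤
      3 * Fintype.card J := by
    let q : J → R := fun j => Quotient.mk _ j
    have h1 : Fintype.card J = ∑ o : R, (Finset.univ.filter (fun j => q j = o)).card := by
      rw [← Finset.card_univ]
      exact Finset.card_eq_sum_card_fiberwise (fun _ _ => Finset.mem_univ _)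
    have h2 : (Finset.univ.filter (fun j => b j i ≠ 0)).card =
        ∑ o : R, ((Finset.univ.filter (fun j => b j i ≠ 0)).filter (fun j => q j = o)).card :=
      Finset.card_eq_sum_card_fiberwise (fun _ _ => Finset.mem_univ _)
    have h3 : 3 * Fintype.card R = ∑ _o : R, 3 := by
      rw [Finset.sum_const, Finset.card_univ, smul_eq_mul, mul_comm]
    rw [h1, h2, h3, Finset.mul_sum, Finset.mul_sum, ← Finset.sum_add_distrib]
    apply Finset.sum_le_sum
    intro o _
    have hpos : 1 ≤ (Finset.univ.filter (fun j => q j = o)).card := by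
      rw [Finset.one_le_card]
      exact ⟨o.out, by simp [q]⟩
    by_cases hcase : ∃ j, q j = o ∧ b j i ≠ 0
    · obtain ⟨j, hj, hji⟩ := hcase
      have h4 := E.three_le_orbit σ hSn hσ hS (b := b) hb hji
      have h5 : Nat.card (MulAction.orbit (E.Mi i) j) =
          (Finset.univ.filter (fun j => q j = o)).card := by
        rw [Nat.card_eq_fintype_card, ← Set.toFinset_card]
        congr 1
        ext k
        rw [Set.mem_toFinset, Finset.mem_filter, ← hj]
        simp only [Finset.mem_univ, true_and, q]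
        exact (Quotient.eq (r := MulAction.orbitRel (E.Mi i) J)).symm
      have h6 : ((Finset.univ.filter (fun j => b j i ≠ 0)).filter (fun j => q j = o)).card ≤
          (Finset.univ.filter (fun j => q j = o)).card := by
        apply Finset.card_le_card
        intro k hk
        rw [Finset.mem_filter] at hk ⊢
        exact ⟨Finset.mem_univ _, hk.2⟩
      omega
    · have h6 : ((Finset.univ.filter (fun j => b j i ≠ 0)).filter (fun j => q j = o)).card = 0 := by
        rw [Finset.card_eq_zero, Finset.filter_eq_empty_iff]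
        intro k hk hko
        exact hcase ⟨k, hko, (Finset.mem_filter.1 hk).2⟩
      omega
  omega

/-- transfer of monomiality -/
theorem transfer [Finite G] [Finite A] [Finite ι] [Nonempty ι] [S.Normal]
    [FiniteDimensional ℂ U] (hSn : ∃ a b : S, a * b ≠ b * a)
    (hσ : Irred σ) (hS : ∃ s ∈ S, ∃ u, σ s u ≠ u) (h : Monomial (E.rep σ)) : Monomial σ := by
  classical
  have : Fintype ι := Fintype.ofFinite ι
  obtain ⟨K, b, hb⟩ := h.basis
  have : Fintype (G ⧸ K) := Fintype.ofFinite _
  have : Nontrivial U := hσ.1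
  have hb0 : ∀ j, b j ≠ 0 := fun j => b.ne_zero j
  have hmove : ∀ (g : G) (j : G ⧸ K) (i : ι), b (g • j) (E.κ g i) ≠ 0 ↔ b j i ≠ 0 := by
    intro g j i
    obtain ⟨c, hc⟩ := hb g j
    have hc0 : c ≠ 0 := by
      rintro rfl
      apply rho_ne (ρ := E.rep σ) (g := g) (hb0 j)
      rw [hc, zero_smul]
    have h1 := congrFun hc (E.κ g i)
    rw [E.rep_apply, Pi.smul_apply] at h1
    constructor
    · intro h2 h3
      rw [h3, map_zero] at h1
      exact (smul_ne_zero hc0 h2) h1.symm
    · intro h2 h3
      rw [h3, smul_zero] at h1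
      exact rho_ne h2 h1
  let r : G ⧸ K → ℕ := fun j => (Finset.univ.filter (fun i => b j i ≠ 0)).card
  have hr : ∀ (g : G) (j : G ⧸ K), r (g • j) = r j := by
    intro g j
    symm
    apply Finset.card_bij (fun i _ => E.κ g i)
    · intro i hi
      rw [Finset.mem_filter] at hi ⊢
      exact ⟨Finset.mem_univ _, (hmove g j i).2 hi.2⟩
    · intro i _ i' _ hii
      exact (E.κ g).injective hii
    · intro i hi
      obtain ⟨i, rfl⟩ := (E.κ g).surjective i
      rw [Finset.mem_filter] at hi
      exact ⟨i, Finset.mem_filter.2 ⟨Finset.mem_univ _, (hmove g j i).1 hi.2⟩, rfl⟩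
  let j₀ : G ⧸ K := ((1 : G) : G ⧸ K)
  have hr' : ∀ j, r j = r j₀ := by
    intro j
    obtain ⟨g, rfl⟩ := QuotientGroup.mk_surjective j
    have h1 : ((g : G) : G ⧸ K) = g • j₀ := by
      change _ = ((g * 1 : G) : G ⧸ K)
      rw [mul_one]
    rw [h1]
    exact hr g j₀
  have hcount : ∑ i, (Finset.univ.filter (fun j => b j i ≠ 0)).card = Fintype.card (G ⧸ K) * r j₀ := by
    have h1 : ∑ j, r j = Fintype.card (G ⧸ K) * r j₀ := by
      rw [Finset.sum_congr rfl (fun j _ => hr' j), Finset.sum_const, Finset.card_univ, smul_eq_mul]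
    rw [← h1]
    simp only [r, Finset.card_filter]
    rw [Finset.sum_comm]
  have hJ : Fintype.card (G ⧸ K) = Fintype.card ι * Module.finrank ℂ U := by
    rw [← Module.finrank_eq_card_basis b, Module.finrank_pi_fintype, Finset.sum_const,
      Finset.card_univ, smul_eq_mul]
  have hJpos : 0 < Fintype.card (G ⧸ K) := Fintype.card_pos_iff.2 ⟨j₀⟩
  have hle : 2 * (Fintype.card (G ⧸ K) * r j₀) ≤ 3 * Fintype.card (G ⧸ K) := by
    rw [← hcount, hJ, Finset.mul_sum]
    calc ∑ i, 2 * (Finset.univ.filter (fun j => b j i ≠ 0)).card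
        ≤ ∑ _i : ι, 3 * Module.finrank ℂ U :=
          Finset.sum_le_sum (fun i _ => E.card_lines σ hSn hσ hS b hb i)
      _ = 3 * (Fintype.card ι * Module.finrank ℂ U) := by
          rw [Finset.sum_const, Finset.card_univ, smul_eq_mul]; ring
  have hr1 : r j₀ ≤ 1 := by
    by_contra hcon
    have h2 : 2 ≤ r j₀ := by omega
    have h3 := Nat.mul_le_mul_left (Fintype.card (G ⧸ K)) h2
    omega
  have huniq : ∀ j i i', b j i ≠ 0 → b j i' ≠ 0 → i = i' := by
    intro j i i' h1 h2
    have h3 : r j ≤ 1 := by rw [hr' j]; exact hr1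
    exact Finset.card_le_one.1 h3 i (Finset.mem_filter.2 ⟨Finset.mem_univ _, h1⟩) i'
      (Finset.mem_filter.2 ⟨Finset.mem_univ _, h2⟩)
  obtain ⟨i₀⟩ := (inferInstance : Nonempty ι)
  let J₀ := {j : G ⧸ K // b j i₀ ≠ 0}
  let b₀ : J₀ → U := fun j => b j i₀
  have hli : LinearIndependent ℂ b₀ := by
    rw [Fintype.linearIndependent_iff]
    intro c hc
    have h1 : LinearIndependent ℂ (fun j : J₀ => b j) :=
      b.linearIndependent.comp _ Subtype.val_injective
    rw [Fintype.linearIndependent_iff] at h1
    apply h1 c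
    funext i
    rw [Finset.sum_apply, Pi.zero_apply]
    by_cases hi : i = i₀
    · subst hi
      exact hc
    · apply Finset.sum_eq_zero
      intro j _
      rw [Pi.smul_apply]
      have : b j i = 0 := by
        by_contra h2
        exact hi (huniq j i i₀ h2 j.2)
      rw [this, smul_zero]
  have hsp : ⊤ ≤ Submodule.span ℂ (Set.range b₀) := by
    intro u _
    have h1 := congrFun (b.sum_repr (Pi.single i₀ u : ι → U)) i₀
    rw [Pi.single_eq_same, Finset.sum_apply] at h1
    rw [← h1]
    apply Submodule.sum_mem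
    intro j _
    rw [Pi.smul_apply]
    by_cases hj : b j i₀ = 0
    · rw [hj, smul_zero]
      exact Submodule.zero_mem _
    · exact Submodule.smul_mem _ _ (Submodule.subset_span ⟨⟨j, hj⟩, rfl⟩)
  apply monomial_of_basis hσ (Module.Basis.mk hli hsp)
  intro a j
  obtain ⟨g, hg, hga⟩ := E.onto i₀ a
  have h0 : b (g • (j : G ⧸ K)) i₀ ≠ 0 := by
    have := (hmove g j i₀).2 j.2
    rwa [hg] at this
  obtain ⟨c, hc⟩ := hb g j
  refine ⟨⟨g • (j : G ⧸ K), h0⟩, c, ?_⟩
  rw [Module.Basis.mk_apply, Module.Basis.mk_apply]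
  have h1 := congrFun hc (E.κ g i₀)
  rw [E.rep_apply, Pi.smul_apply, hg, hga] at h1
  exact h1

end Em

end Pool.Agent.H61.PM
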