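import Pool.Agent.H61.CM.Wreath
import Pool.Agent.H61.PM.Trans
import Pool.Agent.H61.PM.Sol
import Pool.Agent.H61.PM.Meet

/-!
# The almost simple group of a chief factor

Used for MP_8e3030_al.
-/

namespace Pool.Agent.H61.PM

open Equiv Pool.Agent.H61.CM

variable {G T ι : Type} [Group G] [Group T] (W : Wr G T ι) (i₀ : ι)

/-- the automorphisms of `T` induced by the stabiliser of the factor `i₀` -/
def AutG : Subgroup (MulAut T) where
  carrier := {φ | ∃ g, W.κ g i₀ = i₀ ∧ ∀ t, φ t = W.a g i₀ t}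
  one_mem' := ⟨1, by rw [map_one]; rfl, fun t => (W.a_one i₀ t).symm⟩
  mul_mem' := by
    rintro φ ψ ⟨g, hg, hg'⟩ ⟨h, hh, hh'⟩
    refine ⟨g * h, by rw [map_mul, Perm.mul_apply, hh, hg], fun t => ?_⟩
    rw [W.cocycle, hh, ← hh', ← hg']
    rfl
  inv_mem' := by
    rintro φ ⟨g, hg, hg'⟩
    have h1 : W.κ g⁻¹ i₀ = i₀ := by
      conv_lhs => rw [← hg]
      rw [← Perm.mul_apply, ← map_mul, inv_mul_cancel, map_one, Perm.one_apply]
    refine ⟨g⁻¹, h1, fun t => ?_⟩
    apply φ.injective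
    rw [hg' (W.a g⁻¹ i₀ t)]
    have h2 := W.cocycle g g⁻¹ i₀ t
    rw [h1, mul_inv_cancel, W.a_one] at h2
    rw [← h2]
    exact MulAut.apply_inv_self _ φ t

/-- the inner automorphisms in a group of automorphisms -/
def Inn (A : Subgroup (MulAut T)) : Subgroup A := (MulAut.conj (G := T)).range.subgroupOf A

theorem mem_Inn {A : Subgroup (MulAut T)} {φ : A} :
    φ ∈ Inn A ↔ ∃ t : T, ∀ s, (φ : MulAut T) s = t * s * t⁻¹ := by
  constructor
  · rintro ⟨t, ht⟩
    refine ⟨t, fun s => ?_⟩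
    have := congrArg (fun ψ : MulAut T => ψ s) ht
    exact this.symm
  · rintro ⟨t, ht⟩
    refine ⟨t, ?_⟩
    apply MulEquiv.ext
    intro s
    exact (ht s).symm

instance Inn_normal (A : Subgroup (MulAut T)) : (Inn A).Normal := by
  refine ⟨?_⟩
  intro φ hφ ψ
  obtain ⟨t, ht⟩ := mem_Inn.1 hφ
  refine mem_Inn.2 ⟨(ψ : MulAut T) t, fun s => ?_⟩
  change (ψ : MulAut T) ((φ : MulAut T) ((ψ : MulAut T)⁻¹ s)) = _
  rw [ht, map_mul, map_mul, map_inv]
  congr 2
  exact MulAut.apply_inv_self _ _ _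

section simple
variable [IsSimpleGroup T] (hT : ∃ a b : T, a * b ≠ b * a)
include hT

theorem center_triv {z : T} (hz : ∀ t, t * z = z * t) : z = 1 := by
  have h1 : Subgroup.center T = ⊥ := by
    apply (inferInstance : (Subgroup.center T).Normal).eq_bot_or_eq_top.resolve_right
    intro h
    obtain ⟨a, b, hab⟩ := hT
    have : b ∈ Subgroup.center T := by rw [h]; trivial
    exact hab (Subgroup.mem_center_iff.1 this a)
  rw [← Subgroup.mem_bot, ← h1, Subgroup.mem_center_iff]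
  exact hz

theorem centralizer_Inn (A : Subgroup (MulAut T)) (hA : (MulAut.conj (G := T)).range ≤ A) :
    Subgroup.centralizer (Inn A : Set A) = ⊥ := by
  rw [eq_bot_iff]
  intro φ hφ
  rw [Subgroup.mem_bot]
  apply Subtype.ext
  apply MulEquiv.ext
  intro t
  change (φ : MulAut T) t = t
  have h1 := Subgroup.mem_centralizer_iff.1 hφ ⟨MulAut.conj t, hA ⟨t, rfl⟩⟩
    (mem_Inn.2 ⟨t, fun s => rfl⟩)
  have h2 : ∀ s, t * (φ : MulAut T) s * t⁻¹ =
      (φ : MulAut T) t * (φ : MulAut T) s * ((φ : MulAut T) t)⁻¹ := by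
    intro s
    have := congrArg (fun ψ : A => (ψ : MulAut T) s) h1
    change t * (φ : MulAut T) s * t⁻¹ = (φ : MulAut T) (t * s * t⁻¹) at this
    rwa [map_mul, map_mul, map_inv] at this
  have h3 : t⁻¹ * (φ : MulAut T) t = 1 := by
    apply center_triv hT
    intro s
    obtain ⟨s, rfl⟩ := (φ : MulAut T).surjective s
    have h4 := h2 s
    rw [mul_inv_eq_iff_eq_mul] at h4
    calc (φ : MulAut T) s * (t⁻¹ * (φ : MulAut T) t)
        = t⁻¹ * (t * (φ : MulAut T) s) * t⁻¹ * (φ : MulAut T) t := by group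
      _ = t⁻¹ * ((φ : MulAut T) t * (φ : MulAut T) s * ((φ : MulAut T) t)⁻¹ * t) * t⁻¹ *
          (φ : MulAut T) t := by rw [← h4]
      _ = t⁻¹ * (φ : MulAut T) t * (φ : MulAut T) s := by group
  exact (inv_mul_eq_one.1 h3).symm

theorem Inn_simple (A : Subgroup (MulAut T)) (hA : (MulAut.conj (G := T)).range ≤ A) :
    IsSimpleGroup (Inn A) ∧ ∃ a b : Inn A, a * b ≠ b * a := by
  let f : T →* Inn A :=
    { toFun := fun t => ⟨⟨MulAut.conj t, hA ⟨t, rfl⟩⟩, mem_Inn.2 ⟨t, fun s => rfl⟩⟩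
      map_one' := by
        apply Subtype.ext
        apply Subtype.ext
        exact map_one _
      map_mul' := by
        intro s t
        apply Subtype.ext
        apply Subtype.ext
        exact map_mul _ _ _ }
  have hf : Function.Surjective f := by
    rintro ⟨φ, hφ⟩
    obtain ⟨t, ht⟩ := mem_Inn.1 hφ
    refine ⟨t, ?_⟩
    apply Subtype.ext
    apply Subtype.ext
    apply MulEquiv.ext
    intro s
    exact (ht s).symm
  have hinj : ∀ s t, f s = f t → s = t := by
    intro s t h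
    have h1 : ∀ u, s * u * s⁻¹ = t * u * t⁻¹ := by
      intro u
      have := congrArg (fun φ : Inn A => ((φ : A) : MulAut T) u) h
      exact this
    have h3 : t⁻¹ * s = 1 := by
      apply center_triv hT
      intro u
      have h4 := h1 u
      rw [mul_inv_eq_iff_eq_mul] at h4
      calc u * (t⁻¹ * s) = t⁻¹ * (t * u * t⁻¹ * s) := by group
        _ = t⁻¹ * (s * u) := by rw [← h4]
        _ = t⁻¹ * s * u := by group
    exact (inv_mul_eq_one.1 h3).symm
  obtain ⟨a, b, hab⟩ := hT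
  have hne : f a * f b ≠ f b * f a := by
    rw [← map_mul, ← map_mul]
    intro h
    exact hab (hinj _ _ h)
  have hn : Nontrivial (Inn A) := ⟨⟨f a * f b, f b * f a, hne⟩⟩
  exact ⟨IsSimpleGroup.isSimpleGroup_of_surjective f hf, f a, f b, hne⟩

end simple

variable [Nontrivial T] [DecidableEq ι]

theorem conj_le : (MulAut.conj (G := T)).range ≤ AutG W i₀ := by
  rintro _ ⟨t, rfl⟩
  obtain ⟨m, hm⟩ := W.surj (fun _ => t)
  refine ⟨m, by rw [W.κ_M m.2]; rfl, fun s => ?_⟩
  rw [W.a_M m.2, Subtype.coe_eta, hm]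
  rfl

/-- the stabiliser of the factor `i₀` -/
def Stb : Subgroup G where
  carrier := {g | W.κ g i₀ = i₀}
  one_mem' := by
    change W.κ 1 i₀ = i₀
    rw [map_one]
    rfl
  mul_mem' := by
    intro g h hg hh
    change W.κ (g * h) i₀ = i₀
    rw [map_mul, Perm.mul_apply, show W.κ h i₀ = i₀ from hh, show W.κ g i₀ = i₀ from hg]
  inv_mem' := by
    intro g hg
    change W.κ g⁻¹ i₀ = i₀
    conv_lhs => rw [← (show W.κ g i₀ = i₀ from hg)]
    rw [← Perm.mul_apply, ← map_mul, inv_mul_cancel, map_one, Perm.one_apply]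

/-- the map from the stabiliser to the group of induced automorphisms -/
def toAut : Stb W i₀ →* AutG W i₀ where
  toFun g := ⟨W.a g i₀, ⟨g, g.2, fun _ => rfl⟩⟩
  map_one' := by
    apply Subtype.ext
    apply MulEquiv.ext
    intro t
    exact W.a_one i₀ t
  map_mul' := by
    intro g h
    apply Subtype.ext
    apply MulEquiv.ext
    intro t
    have h1 := W.cocycle g h i₀ t
    rw [show W.κ h i₀ = i₀ from h.2] at h1
    exact h1

omit [Nontrivial T] [DecidableEq ι] in
theorem toAut_surj : Function.Surjective (toAut W i₀) := by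
  rintro ⟨φ, g, hg, hφ⟩
  refine ⟨⟨g, hg⟩, ?_⟩
  apply Subtype.ext
  apply MulEquiv.ext
  intro t
  exact (hφ t).symm

theorem derived_le {n : ℕ} (hn : derivedSeries G n ≤ W.M) :
    derivedSeries (AutG W i₀) n ≤ Inn (AutG W i₀) := by
  rw [← map_derivedSeries_eq (toAut_surj W i₀)]
  rintro _ ⟨x, hx, rfl⟩
  have h1 : (x : G) ∈ W.M := hn (map_derivedSeries_le_derivedSeries (Stb W i₀).subtype n ⟨x, hx, rfl⟩)
  refine mem_Inn.2 ⟨W.θ ⟨x, h1⟩ i₀, fun s => ?_⟩
  exact W.a_M h1 i₀ s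

/-- the homomorphism to the wreath product with the group of induced automorphisms -/
theorem exists_em : Nonempty (Em G (AutG W i₀) ι (Inn (AutG W i₀))) := by
  choose gr hgr using W.trans i₀
  have hinv : ∀ g i, W.κ g⁻¹ (W.κ g i) = i := by
    intro g i
    rw [← Perm.mul_apply, ← map_mul, inv_mul_cancel, map_one, Perm.one_apply]
  have hgr' : ∀ i, W.κ (gr i)⁻¹ i = i₀ := by
    intro i
    have h := hinv (gr i) i₀
    rwa [hgr] at h
  have hst : ∀ g i, W.κ ((gr (W.κ g i))⁻¹ * g * gr i) i₀ = i₀ := by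
    intro g i
    rw [map_mul, map_mul, Perm.mul_apply, Perm.mul_apply, hgr, hgr']
  refine ⟨
    { κ := W.κ
      α := fun g i => ⟨W.a ((gr (W.κ g i))⁻¹ * g * gr i) i₀, ⟨_, hst g i, fun _ => rfl⟩⟩
      coc := ?_
      full := ?_
      trans := W.trans
      onto := ?_ }⟩
  · intro g h i
    apply Subtype.ext
    apply MulEquiv.ext
    intro t
    have h1 := W.cocycle ((gr (W.κ g (W.κ h i)))⁻¹ * g * gr (W.κ h i))
      ((gr (W.κ h i))⁻¹ * h * gr i) i₀ t
    rw [hst h i] at h1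
    have h2 : (gr (W.κ g (W.κ h i)))⁻¹ * g * gr (W.κ h i) * ((gr (W.κ h i))⁻¹ * h * gr i) =
        (gr (W.κ (g * h) i))⁻¹ * (g * h) * gr i := by
      rw [map_mul, Perm.mul_apply]
      group
    rw [h2] at h1
    exact h1
  · intro t ht
    choose s hs using fun i => mem_Inn.1 (ht i)
    obtain ⟨m, hm⟩ := W.surj (fun i => (W.a (gr i)⁻¹ i).symm (s i))
    refine ⟨m, W.κ_M m.2, fun i => ?_⟩
    apply Subtype.ext
    apply MulEquiv.ext
    intro u
    change W.a ((gr (W.κ m i))⁻¹ * m * gr i) i₀ u = (t i : MulAut T) u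
    rw [hs, W.κ_M m.2, Perm.one_apply]
    have h1 : (gr i)⁻¹ * m * gr i ∈ W.M := by
      have := W.nor.conj_mem _ m.2 (gr i)⁻¹
      rwa [inv_inv] at this
    rw [W.a_M h1]
    have h2 := W.compat (gr i)⁻¹ i m ⟨_, h1⟩ (by rw [inv_inv])
    rw [hgr', hm, MulEquiv.apply_symm_apply] at h2
    rw [h2]
  · rintro i ⟨φ, g, hg, hφ⟩
    have h1 : W.κ (gr i * g * (gr i)⁻¹) i = i := by
      rw [map_mul, map_mul, Perm.mul_apply, Perm.mul_apply, hgr', hg, hgr]
    refine ⟨gr i * g * (gr i)⁻¹, h1, ?_⟩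
    apply Subtype.ext
    apply MulEquiv.ext
    intro t
    change W.a ((gr (W.κ (gr i * g * (gr i)⁻¹) i))⁻¹ * (gr i * g * (gr i)⁻¹) * gr i) i₀ t = φ t
    rw [h1, hφ]
    congr 2
    group

omit [DecidableEq ι] in
/-- the `P`-characters of the induced almost simple group which come from a maximal subgroup
meeting the socle nontrivially -/
theorem mono_of_meet {A : Type} [Group A] [Finite A] {S : Subgroup A} [S.Normal]
    [IsSimpleGroup S] (hSn : ∃ a b : S, a * b ≠ b * a) [Finite G] [Finite ι] [Nonempty ι]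
    (E : Em G A ι S) (hG : AllMonomial G) {U : Type} [AddCommGroup U] [Module ℂ U]
    [FiniteDimensional ℂ U] {σ : Representation ℂ A U} (hσ : Irred σ) {X : Subgroup A}
    (hX : IsCoatom X) (hXS : X ⊓ S ≠ ⊥) (hocc : Occurs X σ) (hS : ∃ s ∈ S, ∃ u, σ s u ≠ u) :
    Monomial σ := by
  have hSX : ¬ S ≤ X := by
    intro h
    obtain ⟨l, hl, hlX⟩ := fun_of_occurs hσ.1 hocc
    obtain ⟨s, hs, u, hu⟩ := hS
    exact hu (core_trivial hσ hl hlX
      (fun g => h ((inferInstance : S.Normal).conj_mem _ hs g)) u)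
  apply E.transfer σ hSn hσ hS
  exact hG (ι → U) (E.rep σ) (E.irred_rep σ hσ hS)
    ⟨E.H X, E.coatom hX hSX hXS, E.occurs_rep σ hσ hS hocc⟩

theorem all_of_em {A : Type} [Group A] [Finite A] {S : Subgroup A} [S.Normal]
    [IsSimpleGroup S] (hSn : ∃ a b : S, a * b ≠ b * a)
    (hC : Subgroup.centralizer (S : Set A) = ⊥) {n : ℕ} (hn : derivedSeries A n ≤ S)
    [Finite G] [Finite ι] [Nonempty ι] (E : Em G A ι S) (hG : AllMonomial G) :
    AllMonomial A := by
  intro U _ _ _ σ hσ hocc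
  obtain ⟨X, hX, hocc⟩ := hocc
  by_cases hS : ∃ s ∈ S, ∃ u, σ s u ≠ u
  · exact mono_of_meet hSn E hG hσ hX (meet hSn hC hn hX) hocc hS
  · push Not at hS
    exact quotient_case hσ hX hn hS hocc

end Pool.Agent.H61.PM
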