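import Pool.Agent.H61.CM.Extract
import Pool.Agent.H61.PM.FromWr

/-!
# Reduction to almost simple groups

Used for MP_8e3030_al.
-/

namespace Pool.Agent.H61.PM

open Equiv Pool.Agent.H61.CM

/-- a finite group which is not soluble has a non-abelian chief factor on top of which the group
is soluble -/
theorem exists_wr (G : Type) [Group G] [Finite G] (hns : ¬ Group.IsSolvable G) :
    ∃ (T : Type) (_ : Group T) (_ : Finite T) (_ : IsSimpleGroup T) (ι : Type) (_ : Finite ι)
      (_ : Nonempty ι) (W : Wr G T ι) (n : ℕ),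
      (∃ a b : T, a * b ≠ b * a) ∧ derivedSeries G n ≤ W.M := by
  classical
  -- the soluble residual
  have hanti : Antitone (derivedSeries G) := derivedSeries_antitone G
  obtain ⟨n, hn⟩ : ∃ n, derivedSeries G n = derivedSeries G (n + 1) := by
    by_contra hcon
    push Not at hcon
    have hlt : ∀ n, derivedSeries G (n + 1) < derivedSeries G n := fun n =>
      lt_of_le_of_ne (hanti (Nat.le_succ n)) (Ne.symm (hcon n))
    have hsa : StrictAnti (derivedSeries G) := strictAnti_nat_of_succ_lt hlt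
    exact not_injective_infinite_finite _ hsa.injective
  set D := derivedSeries G n with hD
  have hDn : D.Normal := derivedSeries_normal G n
  have hD0 : D ≠ ⊥ := by
    intro h
    exact hns ⟨⟨n, h⟩⟩
  have hDD : ⁅D, D⁆ = D := by
    rw [← derivedSeries_succ, ← hn]
  let Q : Set (Subgroup G) := {N | N.Normal ∧ N < D}
  have hQ : Q.Nonempty := ⟨⊥, inferInstance, bot_lt_iff_ne_bot.2 hD0⟩
  obtain ⟨N, hNmax⟩ := Set.Finite.exists_maximal (Set.toFinite Q) hQ
  obtain ⟨hN, hND⟩ := hNmax.1
  have hmin : ∀ L : Subgroup G, L.Normal → N ≤ L → L < D → L = N := by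
    intro L hL hNL hLD
    exact le_antisymm (hNmax.2 ⟨hL, hLD⟩ hNL) hNL
  have hnc : ∃ x ∈ D, ∃ y ∈ D, x * y * x⁻¹ * y⁻¹ ∉ N := by
    by_contra hcon
    push Not at hcon
    apply hND.not_ge
    conv_lhs => rw [← hDD]
    rw [Subgroup.commutator_le]
    exact hcon
  obtain ⟨S, _, hSf, hSs, ι, hι, hι', W, hS, hWM, -⟩ := chief_wr hN hDn hND hmin hnc
  exact ⟨S, _, hSf, hSs, ι, hι, hι', W, n, hS, by rw [hWM]⟩

/-- reduction to almost simple groups -/
theorem reduction (G : Type) [Group G] [Finite G] (hG : AllMonomial G)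
    (hns : ¬ Group.IsSolvable G) :
    ∃ (A : Type) (_ : Group A) (_ : Finite A) (S : Subgroup A) (_ : S.Normal) (n : ℕ)
      (K : Subgroup G) (f : K →* A),
      IsSimpleGroup S ∧ (∃ a b : S, a * b ≠ b * a) ∧
      Subgroup.centralizer (S : Set A) = ⊥ ∧ derivedSeries A n ≤ S ∧
      Function.Surjective f ∧ AllMonomial A := by
  classical
  obtain ⟨T, _, hTf, hTs, ι, hι, hι', W, n, hT, hn⟩ := exists_wr G hns
  obtain ⟨i₀⟩ := hι'
  have : Nontrivial T := inferInstance
  have : Nonempty ι := ⟨i₀⟩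
  have hle := conj_le W i₀
  obtain ⟨hs, hsn⟩ := Inn_simple hT (AutG W i₀) hle
  obtain ⟨E⟩ := exists_em W i₀
  have hC := centralizer_Inn hT (AutG W i₀) hle
  have hd := derived_le W i₀ hn
  exact ⟨AutG W i₀, inferInstance, inferInstance, Inn (AutG W i₀), inferInstance, n, Stb W i₀,
    toAut W i₀, hs, hsn, hC, hd, toAut_surj W i₀, all_of_em hsn hC hd E hG⟩

end Pool.Agent.H61.PM
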