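import Pool.Agent.H61.PM.Emb

/-!
# The representation induced from the stabiliser of an index

Used for MP_8e3030_al.
-/

namespace Pool.Agent.H61.PM

open Equiv

section fixed
variable {A U : Type} [Group A] [AddCommGroup U] [Module ℂ U] {σ : Representation ℂ A U}

/-- a normal subgroup acting non-trivially on an irreducible representation fixes only `0` -/
theorem fix_zero {S : Subgroup A} [S.Normal] (hσ : Irred σ) (hS : ∃ s ∈ S, ∃ u, σ s u ≠ u)
    {u : U} (hu : ∀ s ∈ S, σ s u = u) : u = 0 := by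
  let F : Submodule ℂ U :=
    { carrier := {w | ∀ s ∈ S, σ s w = w}
      add_mem' := by
        intro a b ha hb s hs
        rw [map_add, ha s hs, hb s hs]
      zero_mem' := by
        intro s _
        rw [map_zero]
      smul_mem' := by
        intro c a ha s hs
        rw [map_smul, ha s hs] }
  rcases hσ.2 F (by
    intro g w hw s hs
    have h1 := hw (g⁻¹ * s * g) (by
      have := (inferInstance : S.Normal).conj_mem _ hs g⁻¹
      rwa [inv_inv] at this)
    conv_rhs => rw [← h1]
    rw [← rho_mul, ← rho_mul]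
    congr 2
    group) with h1 | h1
  · have : u ∈ F := hu
    rw [h1] at this
    exact (Submodule.mem_bot ℂ).1 this
  · exfalso
    obtain ⟨s, hs, w, hw⟩ := hS
    apply hw
    have : w ∈ F := by rw [h1]; trivial
    exact this s hs

/-- a perfect group has no common eigenvectors besides the fixed vectors -/
theorem fix_of_scalar {S : Subgroup A} [IsSimpleGroup S] (hS : ∃ a b : S, a * b ≠ b * a)
    {u : U} (hu : ∀ s ∈ S, ∃ c : ℂ, σ s u = c • u) : ∀ s ∈ S, σ s u = u := by
  by_cases hu0 : u = 0
  · intro s _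
    rw [hu0, map_zero]
  have hne : ∀ s ∈ S, ∀ c : ℂ, σ s u = c • u → c ≠ 0 := by
    rintro s _ c hc rfl
    apply rho_ne (ρ := σ) (g := s) hu0
    rw [hc, zero_smul]
  have hcomm : ∀ s ∈ S, ∀ t ∈ S, σ (s * t) u = σ (t * s) u := by
    intro s hs t ht
    obtain ⟨c, hc⟩ := hu s hs
    obtain ⟨d, hd⟩ := hu t ht
    rw [rho_mul, rho_mul, hc, hd, map_smul, map_smul, hc, hd, smul_smul, smul_smul, mul_comm]
  let F : Subgroup S :=
    { carrier := {s | σ s u = u}
      one_mem' := by
        change σ ((1 : S) : A) u = u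
        rw [Subgroup.coe_one, rho_one]
      mul_mem' := by
        intro s t hs ht
        change σ ((s * t : S) : A) u = u
        rw [Subgroup.coe_mul, rho_mul, show σ t u = u from ht, show σ s u = u from hs]
      inv_mem' := by
        intro s hs
        change σ ((s⁻¹ : S) : A) u = u
        conv_lhs => rw [← (show σ s u = u from hs)]
        rw [Subgroup.coe_inv, rho_inv] }
  have hF : F.Normal := by
    refine ⟨?_⟩
    intro s hs t
    change σ ((t * s * t⁻¹ : S) : A) u = u
    have h1 : ((t * s * t⁻¹ : S) : A) = t * ((s : A) * (t : A)⁻¹) := by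
      rw [Subgroup.coe_mul, Subgroup.coe_mul, Subgroup.coe_inv, mul_assoc]
    rw [h1, hcomm _ t.2 _ (S.mul_mem s.2 (S.inv_mem t.2)), inv_mul_cancel_right]
    exact hs
  rcases hF.eq_bot_or_eq_top with h | h
  · exfalso
    obtain ⟨a, b, hab⟩ := hS
    apply hab
    have h1 : (a * b) * (b * a)⁻¹ ∈ F := by
      change σ (((a * b) * (b * a)⁻¹ : S) : A) u = u
      have h2 : (((a * b) * (b * a)⁻¹ : S) : A) = ((a * b : S) : A) * ((b * a : S) : A)⁻¹ := rfl
      rw [h2, hcomm _ (a * b).2 _ (S.inv_mem (b * a).2), rho_mul]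
      have h3 : σ ((a * b : S) : A) u = σ ((b * a : S) : A) u := by
        rw [Subgroup.coe_mul, Subgroup.coe_mul, hcomm _ a.2 _ b.2]
      rw [h3, rho_inv]
    rw [h, Subgroup.mem_bot] at h1
    exact mul_inv_eq_one.1 h1
  · intro s hs
    have : (⟨s, hs⟩ : S) ∈ F := by rw [h]; trivial
    exact this

end fixed

namespace Em

variable {G A ι : Type} [Group G] [Group A] {S : Subgroup A} (E : Em G A ι S)
variable {U : Type} [AddCommGroup U] [Module ℂ U] (σ : Representation ℂ A U)

/-- the induced representation -/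
def rep : Representation ℂ G (ι → U) where
  toFun g :=
    { toFun := fun v j => σ (E.α g (E.κ g⁻¹ j)) (v (E.κ g⁻¹ j))
      map_add' := by
        intro v w
        funext j
        simp only [Pi.add_apply, map_add]
      map_smul' := by
        intro c v
        funext j
        simp only [Pi.smul_apply, map_smul, RingHom.id_apply] }
  map_one' := by
    ext v j
    change σ (E.α 1 (E.κ 1⁻¹ j)) (v (E.κ 1⁻¹ j)) = v j
    rw [E.α_one, rho_one, inv_one, map_one, Perm.one_apply]
  map_mul' := by
    intro g h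
    apply LinearMap.ext
    intro v
    funext j
    change σ (E.α (g * h) (E.κ (g * h)⁻¹ j)) (v (E.κ (g * h)⁻¹ j)) =
      σ (E.α g (E.κ g⁻¹ j)) (σ (E.α h (E.κ h⁻¹ (E.κ g⁻¹ j))) (v (E.κ h⁻¹ (E.κ g⁻¹ j))))
    have h1 : E.κ (g * h)⁻¹ j = E.κ h⁻¹ (E.κ g⁻¹ j) := by
      rw [mul_inv_rev, map_mul, Perm.mul_apply]
    rw [h1, E.coc, E.κ_inv', rho_mul]

theorem rep_apply (g : G) (v : ι → U) (i : ι) :
    E.rep σ g v (E.κ g i) = σ (E.α g i) (v i) := by
  change σ (E.α g (E.κ g⁻¹ (E.κ g i))) (v (E.κ g⁻¹ (E.κ g i))) = _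
  rw [E.κ_inv]

theorem rep_apply' {g : G} (hg : E.κ g = 1) (v : ι → U) (i : ι) :
    E.rep σ g v i = σ (E.α g i) (v i) := by
  have := E.rep_apply σ g v i
  rwa [hg, Perm.one_apply] at this

theorem irred_rep [Finite ι] [Nonempty ι] [S.Normal] (hσ : Irred σ)
    (hS : ∃ s ∈ S, ∃ u, σ s u ≠ u) : Irred (E.rep σ) := by
  classical
  have : Fintype ι := Fintype.ofFinite ι
  have : Nontrivial U := hσ.1
  refine ⟨inferInstance, ?_⟩
  intro F hF
  by_cases hbot : F = ⊥
  · exact Or.inl hbot
  right
  obtain ⟨v, hv, hv0⟩ := (Submodule.ne_bot_iff F).1 hbot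
  obtain ⟨i₀, hi₀⟩ : ∃ i, v i ≠ 0 := by
    by_contra hcon
    push Not at hcon
    exact hv0 (funext hcon)
  -- a vector of `F` supported at `i₀`
  obtain ⟨u₀, hu₀, hu₀F⟩ : ∃ u : U, u ≠ 0 ∧ Pi.single i₀ u ∈ F := by
    obtain ⟨s, hs, hsu⟩ : ∃ s ∈ S, σ s (v i₀) ≠ v i₀ := by
      by_contra hcon
      push Not at hcon
      exact hi₀ (fix_zero hσ hS hcon)
    obtain ⟨m, hm, hms⟩ := E.full (fun j => if j = i₀ then s else 1) (by
      intro j
      split_ifs
      · exact hs
      · exact S.one_mem)
    refine ⟨σ s (v i₀) - v i₀, sub_ne_zero.2 hsu, ?_⟩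
    have h1 : Pi.single i₀ (σ s (v i₀) - v i₀) = E.rep σ m v - v := by
      funext j
      rw [Pi.sub_apply, E.rep_apply' σ hm, hms]
      by_cases hj : j = i₀
      · subst hj
        rw [Pi.single_eq_same, if_pos rfl]
      · rw [Pi.single_eq_of_ne hj, if_neg hj, rho_one, sub_self]
    rw [h1]
    exact F.sub_mem (hF _ _ hv) hv
  -- all vectors supported at `i₀`
  have hall : ∀ u : U, Pi.single i₀ u ∈ F := by
    let F₀ : Submodule ℂ U := F.comap (LinearMap.single ℂ (fun _ : ι => U) i₀)
    have h1 : F₀ = ⊤ := by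
      rcases hσ.2 F₀ (by
        intro a u hu
        obtain ⟨g, hg, hga⟩ := E.onto i₀ a
        have h2 : E.rep σ g (Pi.single i₀ u) = Pi.single i₀ (σ a u) := by
          funext j
          obtain ⟨j, rfl⟩ := (E.κ g).surjective j
          rw [E.rep_apply]
          by_cases hj : j = i₀
          · subst hj
            rw [Pi.single_eq_same, hg, Pi.single_eq_same, hga]
          · rw [Pi.single_eq_of_ne hj, map_zero, Pi.single_eq_of_ne]
            intro h3
            apply hj
            apply (E.κ g).injective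
            rw [h3, hg]
        change Pi.single i₀ (σ a u) ∈ F
        rw [← h2]
        exact hF _ _ hu) with h | h
      · exfalso
        apply hu₀
        have : u₀ ∈ F₀ := hu₀F
        rw [h] at this
        exact (Submodule.mem_bot ℂ).1 this
      · exact h
    intro u
    have : u ∈ F₀ := by rw [h1]; trivial
    exact this
  have hall' : ∀ (i : ι) (u : U), Pi.single i u ∈ F := by
    intro i u
    obtain ⟨g, hg⟩ := E.trans i₀ i
    have h2 : E.rep σ g (Pi.single i₀ (σ (E.α g i₀)⁻¹ u)) = Pi.single i u := by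
      funext j
      obtain ⟨j, rfl⟩ := (E.κ g).surjective j
      rw [E.rep_apply]
      by_cases hj : j = i₀
      · subst hj
        rw [Pi.single_eq_same, hg, Pi.single_eq_same, rho_inv']
      · rw [Pi.single_eq_of_ne hj, map_zero, Pi.single_eq_of_ne]
        intro h3
        apply hj
        apply (E.κ g).injective
        rw [h3, hg]
    rw [← h2]
    exact hF _ _ (hall _)
  rw [eq_top_iff]
  intro w _
  rw [← Finset.univ_sum_single w]
  exact F.sum_mem (fun i _ => hall' i _)

theorem occurs_rep [Finite ι] [Nonempty ι] [S.Normal] (hσ : Irred σ)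
    (hS : ∃ s ∈ S, ∃ u, σ s u ≠ u) {X : Subgroup A} (hX : Occurs X σ) :
    Occurs (E.H X) (E.rep σ) := by
  classical
  have : Fintype ι := Fintype.ofFinite ι
  obtain ⟨l, hl, hlX⟩ := fun_of_occurs hσ.1 hX
  let L : (ι → U) →ₗ[ℂ] ℂ := ∑ i, l.comp (LinearMap.proj i)
  have hL : ∀ v, L v = ∑ i, l (v i) := by
    intro v
    simp only [L, LinearMap.sum_apply, LinearMap.comp_apply, LinearMap.proj_apply]
  apply occurs_of_fun (E.irred_rep σ hσ hS) (l := L)
  · intro h0
    apply hl
    ext u
    obtain ⟨i₀⟩ := (inferInstance : Nonempty ι)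
    have h1 := hL (Pi.single i₀ u)
    rw [h0, LinearMap.zero_apply, Finset.sum_eq_single i₀] at h1
    · rw [Pi.single_eq_same] at h1
      rw [← h1]
      rfl
    · intro j _ hj
      rw [Pi.single_eq_of_ne hj, map_zero]
    · intro h
      exact (h (Finset.mem_univ _)).elim
  · intro h hh v
    rw [hL, hL, ← Equiv.sum_comp (E.κ h)]
    apply Finset.sum_congr rfl
    intro i _
    rw [E.rep_apply]
    exact hlX _ (hh i) _

end Em

end Pool.Agent.H61.PM
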