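import Pool.Agent.H61.PM.Crit
import Pool.Agent.H61.PM.Reduce

/-!
# Composition factors

Used for MP_8e3030_al.
-/

namespace Pool.Agent.H61.PM

open Equiv Pool.Agent.H61.CM
open scoped Pointwise

/-- the criterion for composition factors -/
theorem comp_crit {G T : Type} [Group G] [Finite G] [Group T] [IsSimpleGroup T]
    (hT : ∃ a b : T, a * b ≠ b * a) (hG : AllMonomial G) {K : Subgroup G} (hK : K.IsSubnormal)
    (f : K →* T) (hf : Function.Surjective f) {Y : Subgroup T} (hY : Y ≠ ⊤)
    (hcls : ∀ φ : MulAut T, ∃ t : T, im φ Y = im (MulAut.conj t) Y) :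
    ∃ R : Subgroup T, R ≠ ⊤ ∧ 2 * R.index ≤ Y.index := by
  have : Finite T := Finite.of_surjective f hf
  obtain ⟨ι, hι, hι', ⟨W⟩⟩ := extract hT hK f hf
  obtain ⟨i₀⟩ := hι'
  exact index_crit hT i₀ W hG hY hcls

/-- a non-abelian simple group is not a `p`-group -/
theorem not_pgroup {T : Type} [Group T] [Finite T] [IsSimpleGroup T]
    (hT : ∃ a b : T, a * b ≠ b * a) {p : ℕ} [Fact p.Prime] : ¬ IsPGroup p T := by
  intro h
  have hn : Nontrivial (Subgroup.center T) := h.center_nontrivial
  have hc : Subgroup.center T = ⊤ := by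
    apply (inferInstance : (Subgroup.center T).Normal).eq_bot_or_eq_top.resolve_left
    intro h
    rw [h] at hn
    exact not_nontrivial _ hn
  obtain ⟨a, b, hab⟩ := hT
  have : b ∈ Subgroup.center T := by rw [hc]; trivial
  exact hab (Subgroup.mem_center_iff.1 this a)

/-- the normaliser of a Sylow subgroup satisfies the hypotheses of the criterion -/
theorem sylow_cls {T : Type} [Group T] [Finite T] [IsSimpleGroup T]
    (hT : ∃ a b : T, a * b ≠ b * a) {p : ℕ} [Fact p.Prime] (hp : p ∣ Nat.card T) (P : Sylow p T) :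
    Subgroup.normalizer (P : Set T) ≠ ⊤ ∧ ∀ φ : MulAut T, ∃ t : T,
      im φ (Subgroup.normalizer (P : Set T)) =
        im (MulAut.conj t) (Subgroup.normalizer (P : Set T)) := by
  classical
  constructor
  · intro h
    have hn : (P : Subgroup T).Normal := Subgroup.normalizer_eq_top_iff.1 h
    rcases hn.eq_bot_or_eq_top with h1 | h1
    · have h2 := P.card_eq_multiplicity
      rw [h1, Subgroup.card_bot] at h2
      have hpr : p.Prime := Fact.out
      have h3 : 0 < (Nat.card T).factorization p :=
        hpr.factorization_pos_of_dvd Nat.card_pos.ne' hp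
      have h4 := Nat.one_lt_pow h3.ne' hpr.one_lt
      omega
    · apply not_pgroup hT (p := p)
      have h2 := P.isPGroup'
      intro s
      obtain ⟨k, hk⟩ := h2 ⟨s, by rw [h1]; trivial⟩
      exact ⟨k, congrArg Subtype.val hk⟩
  · intro φ
    have hmem : ∀ (a : MulAut T) (R : Sylow p T) (s : T), s ∈ a • R ↔ a⁻¹ s ∈ R := by
      intro a R s
      change s ∈ (a • (R : Subgroup T)) ↔ _
      rw [Subgroup.mem_pointwise_smul_iff_inv_smul_mem]
      rfl
    have hmem' : ∀ (t : T) (R : Sylow p T) (s : T), s ∈ t • R ↔ t⁻¹ * s * t ∈ R := by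
      intro t R s
      change s ∈ (MulAut.conj t • (R : Subgroup T)) ↔ _
      rw [Subgroup.mem_pointwise_smul_iff_inv_smul_mem, ← map_inv, MulAut.smul_def,
        MulAut.conj_apply, inv_inv]
      rfl
    have hcomp : ∀ (a : MulAut T) (t : T) (R : Sylow p T), a • (t • R) = (a t) • (a • R) := by
      intro a t R
      apply Sylow.ext
      ext s
      change s ∈ a • (t • R) ↔ s ∈ (a t) • (a • R)
      rw [hmem, hmem', hmem', hmem, map_mul, map_mul, map_inv]
      rw [MulAut.inv_apply_self]
    obtain ⟨t, ht⟩ := MulAction.exists_smul_eq T P (φ • P)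
    refine ⟨t, ?_⟩
    ext s
    rw [mem_im, mem_im, ← Sylow.smul_eq_iff_mem_normalizer, ← Sylow.smul_eq_iff_mem_normalizer]
    have h1 : (MulAut.conj t).symm s = t⁻¹ * s * t := by
      rw [MulEquiv.symm_apply_eq, MulAut.conj_apply]; group
    rw [h1]
    have h2 : φ.symm s • P = P ↔ s • (φ • P) = φ • P := by
      have h3 := hcomp φ (φ.symm s) P
      rw [MulEquiv.apply_symm_apply] at h3
      rw [← h3]
      constructor
      · intro h
        rw [h]
      · intro h
        exact MulAction.injective φ h
    rw [h2, ← ht, mul_smul, mul_smul, inv_smul_eq_iff]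

/-- the number of Sylow subgroups -/
theorem sylow_crit {G T : Type} [Group G] [Finite G] [Group T] [IsSimpleGroup T]
    (hT : ∃ a b : T, a * b ≠ b * a) (hG : AllMonomial G) {K : Subgroup G} (hK : K.IsSubnormal)
    (f : K →* T) (hf : Function.Surjective f) {p : ℕ} [Fact p.Prime] (hp : p ∣ Nat.card T) :
    ∃ R : Subgroup T, R ≠ ⊤ ∧ 2 * R.index ≤ Nat.card (Sylow p T) := by
  have : Finite T := Finite.of_surjective f hf
  have P : Sylow p T := default
  obtain ⟨h1, h2⟩ := sylow_cls hT hp P
  obtain ⟨R, hR, hR'⟩ := comp_crit hT hG hK f hf h1 h2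
  exact ⟨R, hR, by rw [P.card_eq_index_normalizer]; exact hR'⟩

/-- the order of a simple group with a subgroup of small index -/
theorem card_le_factorial {T : Type} [Group T] [Finite T] [IsSimpleGroup T] {R : Subgroup T}
    (hR : R ≠ ⊤) : Nat.card T ≤ R.index.factorial := by
  classical
  have hc : R.normalCore = ⊥ := by
    apply (inferInstance : R.normalCore.Normal).eq_bot_or_eq_top.resolve_right
    intro h
    apply hR
    rw [eq_top_iff, ← h]
    exact Subgroup.normalCore_le R
  have : Fintype (T ⧸ R) := Fintype.ofFinite _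
  have h1 : Function.Injective (MulAction.toPermHom T (T ⧸ R)) := by
    rw [← MonoidHom.ker_eq_bot_iff, ← Subgroup.normalCore_eq_ker]
    exact hc
  have h2 := Nat.card_le_card_of_injective _ h1
  rwa [Nat.card_perm, ← Subgroup.index] at h2

end Pool.Agent.H61.PM
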